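import Pool.Agent.Run7.h874.T690.PJ3

/-!
# Piece J (helper690): gluing in the full problem
-/

set_option autoImplicit false
set_option linter.all false

namespace Run7.h874

open Complex Set

/-- `fs s` as a continuous linear map -/
noncomputable def fsL (s : ℝ) : P4 →L[ℝ] P4 :=
  (ContinuousLinearMap.fst ℝ P2 P2).prod (s • ContinuousLinearMap.snd ℝ P2 P2)

theorem fsL_apply (s : ℝ) (X : P4) : fsL s X = fs s X := rfl

theorem fs_ne {s : ℝ} (hs : s = 1 ∨ s = -1) {X : P4}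
    (h : X.1.1 ≠ 0 ∧ X.2.1 + X.1.1/2 ≠ 0 ∧ X.2.1 - X.1.1/2 ≠ 0) :
    (fs s X).1.1 ≠ 0 ∧ (fs s X).2.1 + (fs s X).1.1/2 ≠ 0 ∧ (fs s X).2.1 - (fs s X).1.1/2 ≠ 0 := by
  obtain ⟨h1, h2, h3⟩ := h
  rcases hs with rfl | rfl
  · rw [fs_one]
    exact ⟨h1, h2, h3⟩
  · rw [fs_neg_one]
    refine ⟨h1, ?_, ?_⟩
    · show -X.2.1 + X.1.1/2 ≠ 0
      intro h
      apply h3
      rw [← neg_eq_zero, ← h]
      ring
    · show -X.2.1 - X.1.1/2 ≠ 0
      intro h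
      apply h2
      rw [← neg_eq_zero, ← h]
      ring

/-- gluing an orbit of the cut-off flow and a collision solution -/
theorem glue {w : List (Fin 3)} {ε T s ω2 : ℝ} (hs : s = 1 ∨ s = -1) {Y : ℝ → P4} (X2 : ℝ → P4)
    (hT : 0 ≤ T) (hω2 : 0 < ω2)
    (hY : ∀ t, HasDerivAt Y (fe rho0 ε (Y t)) t)
    (hgood : ∀ t ≤ T, ((Y t).1.1 ≠ 0 ∧ (Y t).2.1 + (Y t).1.1/2 ≠ 0 ∧ (Y t).2.1 - (Y t).1.1/2 ≠ 0) ∧
      fe rho0 ε (Y t) = fe 0 ε (Y t))
    (hneg : ∀ t ≤ 0, 0 < gI (Y t))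
    (h0 : X2 0 = fs s (Y T))
    (h1 : ∀ t ∈ Ico 0 ω2, HasDerivWithinAt X2 (fe 0 ε (X2 t)) (Ici t) t)
    (h2 : ∀ t ∈ Ioo 0 ω2, HasDerivAt X2 (fe 0 ε (X2 t)) t)
    (h3 : ∀ t ∈ Ico 0 ω2, (X2 t).1.1 ≠ 0 ∧ (X2 t).2.1 + (X2 t).1.1/2 ≠ 0 ∧
      (X2 t).2.1 - (X2 t).1.1/2 ≠ 0 ∧ 0 < ((X2 t).2.1 * (starRingEnd ℂ) (X2 t).1.1).im)
    (h4 : ∀ κ > 0, ∀ t0 < ω2, ∃ t ∈ Ioo t0 ω2, 0 ≤ t ∧ ‖(X2 t).2.1 + (X2 t).1.1/2‖ < κ)
    {L : List ℝ} (hL1 : List.Forall₂ (fun t c => gI (Y t) = 0 ∧ mid c (Y t)) L w)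
    (hL2 : L.Pairwise (· < ·)) (hL3 : ∀ t ∈ L, 0 < t ∧ t < T)
    (hL4 : ∀ t ∈ Icc 0 T, gI (Y t) = 0 → t ∈ L) :
    ∃ X : ℝ → P4, Path w ε (T + ω2) X := by
  have hr0 : (0:ℝ) < rho0 := by
    unfold rho0
    norm_num
  let X : ℝ → P4 := fun t => if t ≤ T then Y t else fs s (X2 (t - T))
  have hXl : ∀ t ≤ T, X t = Y t := fun t ht => if_pos ht
  have hXr : ∀ t, T ≤ t → X t = fs s (X2 (t - T)) := by
    intro t ht
    rcases eq_or_lt_of_le ht with h | h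
    · rw [hXl t h.ge, ← h, sub_self, h0, fs_fs hs]
    · exact if_neg (not_le.2 h)
  have hs0 : s ≠ 0 := by
    rcases hs with rfl | rfl <;> norm_num
  refine ⟨X, ?_, ?_, ⟨(s : ℂ), ?_, ?_⟩, ?_⟩
  · intro t ht
    rcases lt_trichotomy t T with hlt | heq | hgt
    · have e1 : X =ᶠ[nhds t] Y := by
        filter_upwards [Iio_mem_nhds hlt] with u hu
        exact hXl u (le_of_lt hu)
      have e2 := (hY t).congr_of_eventuallyEq e1
      rw [hXl t hlt.le, ← (hgood t hlt.le).2]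
      exact e2
    · subst heq
      have e1 : HasDerivWithinAt X (fe 0 ε (X t)) (Iic t) t := by
        have e2 := (hY t).hasDerivWithinAt (s := Iic t)
        rw [hXl t le_rfl, ← (hgood t le_rfl).2]
        exact e2.congr (fun u hu => hXl u hu) (hXl t le_rfl)
      have e3 : HasDerivWithinAt X (fe 0 ε (X t)) (Ici t) t := by
        have e4 : HasDerivWithinAt X2 (fe 0 ε (X2 0)) (Ici 0) (t - t) := by
          rw [sub_self]
          exact h1 0 ⟨le_rfl, hω2⟩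
        have e5 : HasDerivWithinAt (fun u : ℝ => u - t) 1 (Ici t) t :=
          ((hasDerivAt_id t).sub_const t).hasDerivWithinAt
        have e6 : HasDerivWithinAt (X2 ∘ fun u : ℝ => u - t) ((1:ℝ) • fe 0 ε (X2 0)) (Ici t) t :=
          HasDerivWithinAt.scomp (h := fun u : ℝ => u - t) t e4 e5 (fun u hu => by
            show (0:ℝ) ≤ u - t
            exact sub_nonneg.2 hu)
        rw [one_smul] at e6
        have e7 := (fsL s).hasFDerivAt.comp_hasDerivWithinAt t e6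
        have e8 : (fsL s) (fe 0 ε (X2 0)) = fe 0 ε (X t) := by
          rw [fsL_apply, ← fe_fs hs, h0, fs_fs hs, hXl t le_rfl]
        rw [e8] at e7
        refine e7.congr (fun u hu => ?_) ?_
        · rw [hXr u hu]
          rfl
        · rw [hXr t le_rfl]
          rfl
      have e9 := e1.union e3
      rw [Iic_union_Ici, hasDerivWithinAt_univ] at e9
      exact e9
    · have e1 : X =ᶠ[nhds t] fun u => fs s (X2 (u - T)) := by
        filter_upwards [Ioi_mem_nhds hgt] with u hu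
        exact hXr u (le_of_lt hu)
      have e2 : HasDerivAt X2 (fe 0 ε (X2 (t - T))) (t - T) :=
        h2 (t - T) ⟨by linarith, by linarith⟩
      have e3 := (fsL s).hasFDerivAt.comp_hasDerivAt t (HasDerivAt.comp_sub_const t T e2)
      rw [fsL_apply, ← fe_fs hs, ← hXr t hgt.le] at e3
      exact e3.congr_of_eventuallyEq e1
  · intro t ht
    rcases le_total t T with h | h
    · rw [hXl t h]
      exact (hgood t h).1
    · rw [hXr t h]
      have h5 := h3 (t - T) ⟨by linarith, by linarith⟩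
      exact fs_ne hs ⟨h5.1, h5.2.1, h5.2.2.1⟩
  · rcases hs with rfl | rfl
    · left
      norm_num
    · right
      norm_num
  · intro κ hκ t0 ht0
    obtain ⟨t, ht, ht2, ht3⟩ := h4 κ hκ (t0 - T) (by linarith)
    refine ⟨T + t, ⟨by linarith [ht.1], by linarith [ht.2]⟩, ?_⟩
    rw [hXr (T + t) (by linarith), show T + t - T = t by ring]
    have e1 : (fs s (X2 t)).2.1 + (s:ℂ) * (fs s (X2 t)).1.1/2 = (s:ℂ) * ((X2 t).2.1 + (X2 t).1.1/2) := by
      show s • (X2 t).2.1 + (s:ℂ) * (X2 t).1.1/2 = _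
      rw [real_smul]
      ring
    rw [e1, norm_mul]
    have e2 : ‖(s:ℂ)‖ = 1 := by
      rcases hs with rfl | rfl <;> simp
    rw [e2, one_mul]
    exact ht3
  · -- the eclipses
    have hlen : w.length = L.length := hL1.length_eq.symm
    rw [List.forall₂_iff_get] at hL1
    rw [List.pairwise_iff_get] at hL2
    refine ⟨fun i => L.get (Fin.cast hlen i), ?_, ?_, ?_, ?_⟩
    · intro i j hij
      exact hL2 _ _ hij
    · intro i
      have := hL3 _ (List.get_mem L (Fin.cast hlen i))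
      linarith [this.2]
    · intro t ht hgt
      have hgt' : gI (X t) = 0 := hgt
      rcases le_total t 0 with h | h
      · rw [hXl t (h.trans hT)] at hgt'
        exact absurd hgt' (hneg t h).ne'
      · rcases le_total t T with h' | h'
        · rw [hXl t h'] at hgt'
          obtain ⟨n, hn⟩ := List.mem_iff_get.1 (hL4 t ⟨h, h'⟩ hgt')
          refine ⟨Fin.cast hlen.symm n, ?_⟩
          rw [← hn]
          rfl
        · rw [hXr t h', gI_fs hs] at hgt'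
          have h5 := (h3 (t - T) ⟨by linarith, by linarith⟩).2.2.2
          have h6 : 0 < gI (X2 (t - T)) := h5
          rcases mul_eq_zero.1 hgt' with h7 | h7
          · exact absurd h7 hs0
          · exact absurd h7 h6.ne'
    · intro i
      have h5 := hL3 _ (List.get_mem L (Fin.cast hlen i))
      show gI (X (L.get (Fin.cast hlen i))) = 0 ∧ mid (w.get i) (X (L.get (Fin.cast hlen i)))
      rw [hXl _ h5.2.le]
      exact hL1.2 i.1 (by rw [← hlen]; exact i.2) i.2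

theorem pJ (hA1 : StmtA1) (hA2 : StmtA2) (hA3 : StmtA3) (hF : StmtF) (hG : StmtG) (hH : StmtH) :
    StmtJ := by
  intro w
  have hr0 : (0:ℝ) < rho0 := by
    unfold rho0
    norm_num
  have hr1 : rho0 ≤ 1 := by
    unfold rho0
    norm_num
  obtain ⟨P, ν, Tm, m, hP, hν, hTm, hm, hFw⟩ := hF (tl w)
  obtain ⟨K0, hK0⟩ := hA3.1 rho0 hr0 hr1
  obtain ⟨φ, hφ⟩ := hA1 P2 (f0 rho0) K0 hK0
  obtain ⟨K, C, hKL, hC⟩ := hA3.2.2 rho0 hr0 hr1
  have hneg : ∀ x t, 0 ≤ t → φ t (-x) = -φ t x := fun x t ht => flow_neg hA2 hK0 hφ x ht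
  obtain ⟨δ, hδ0, hδ1, hδ2⟩ : ∃ δ : ℝ, 0 < δ ∧ δ ≤ 1/10^16 ∧ 2000 * δ ≤ m :=
    ⟨min (1/10^16) (m/2000), lt_min (by positivity) (by positivity), min_le_left _ _, by
      have := min_le_right (1/10^16 : ℝ) (m/2000)
      linarith⟩
  have hδ3 : δ ≤ 1/10^6 := hδ1.trans (by norm_num)
  set E := Real.exp (K * Tm) with hE
  have hEpos : 0 < E := Real.exp_pos _
  set κ := δ / (2 * E) with hκ
  have hκpos : 0 < κ := by positivity
  obtain ⟨ε0, hε0, hGε⟩ := hG P ν κ hP hν hκpos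
  obtain ⟨ε1, hε1, hHε⟩ := hH
  have hCp : 0 < |C| + 1 := by positivity
  obtain ⟨ε, hε, hε2, hε3, hε4, hε5⟩ : ∃ ε : ℝ, 0 < ε ∧ ε < ε0 ∧ ε < ε1 ∧ ε ≤ 1 ∧
      ε ≤ δ / (2 * ((|C| + 1) * (Tm + 1) * E)) := by
    refine ⟨min (min (ε0/2) (ε1/2)) (min 1 (δ / (2 * ((|C| + 1) * (Tm + 1) * E)))),
      lt_min (lt_min (by positivity) (by positivity)) (lt_min one_pos (by positivity)), ?_, ?_, ?_, ?_⟩
    · exact ((min_le_left _ _).trans (min_le_left _ _)).trans_lt (by linarith)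
    · exact ((min_le_left _ _).trans (min_le_right _ _)).trans_lt (by linarith)
    · exact (min_le_right _ _).trans (min_le_left _ _)
    · exact (min_le_right _ _).trans (min_le_right _ _)
  obtain ⟨Φ, hΦ⟩ := hA1 P4 (fe rho0 ε) K (hKL ε hε.le hε4)
  obtain ⟨Cs, hCs, hColl, hIVT⟩ := hHε ε hε hε3
  have hclose : ∀ X0 : P4, ‖X0.1.1 - 1‖ ≤ κ → ‖X0.1.2‖ ≤ κ → ∀ t ∈ Icc 0 Tm,
      Near δ (Φ t X0) (φ t X0.2) := by
    intro X0 h1 h2 t ht
    refine close hA2 hφ hΦ (hKL ε hε.le hε4) (C := |C| + 1) ?_ (by positivity) hκpos.le hTm.le ?_ h1 h2 ht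
    · intro x
      refine (hC ε x hε.le hε4).trans ?_
      have := le_abs_self C
      nlinarith
    · have e1 : κ * E = δ / 2 := by
        rw [hκ]
        field_simp
      have e2 : (|C| + 1) * ε * Tm * E ≤ δ / 2 := by
        have e3 : ε * (2 * ((|C| + 1) * (Tm + 1) * E)) ≤ δ := (le_div_iff₀ (by positivity)).1 hε5
        have e4 : (|C| + 1) * ε * Tm * E ≤ (|C| + 1) * ε * (Tm + 1) * E := by
          gcongr
          linarith
        nlinarith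
      calc (κ + (|C| + 1) * ε * Tm) * Real.exp (K * Tm) = κ * E + (|C| + 1) * ε * Tm * E := by
            rw [← hE]
            ring
        _ ≤ δ := by linarith
  set s : ℝ := (-1) ^ (tl w).length with hs
  have hs' : s = 1 ∨ s = -1 := neg_one_pow_eq_or ℝ _
  -- the closed sets
  let B : Set (P4 × ℝ) := Metric.closedBall hub4 (1/50) ×ˢ Icc 0 Tm
  have hB : IsCompact B := (isCompact_closedBall _ _).prod isCompact_Icc
  let S1 : Set (P4 × ℝ) := {q | ∃ y, Tr φ (tl w) m q.1.2 q.2 y}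
  have hS1 : IsClosed S1 := (Tr_closed hφ m (tl w)).preimage
    (f := fun q : P4 × ℝ => (q.1.2, q.2)) (by fun_prop)
  let S2 : Set (P4 × ℝ) := {q | ‖q.1.1.1 - 1‖ ≤ κ} ∩ {q | ‖q.1.1.2‖ ≤ κ}
  have hS2 : IsClosed S2 := by
    have c1 : Continuous fun q : P4 × ℝ => ‖q.1.1.1 - 1‖ := by fun_prop
    have c2 : Continuous fun q : P4 × ℝ => ‖q.1.1.2‖ := by fun_prop
    exact (isClosed_le c1 continuous_const).inter (isClosed_le c2 continuous_const)
  let S4 : ℕ → Set (P4 × ℝ) := fun n => {q | ∀ t ∈ Icc (-(n:ℝ)) 0, ‖Φ t q.1 - hub4‖ ≤ 1/50}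
  have hS4 : ∀ n, IsClosed (S4 n) := by
    intro n
    have h1 : S4 n = ⋂ t ∈ Icc (-(n:ℝ)) 0, {q : P4 × ℝ | ‖Φ t q.1 - hub4‖ ≤ 1/50} := by
      ext q
      simp only [S4, mem_setOf_eq, mem_iInter]
    rw [h1]
    refine isClosed_biInter fun t _ => ?_
    have c1 : Continuous fun q : P4 × ℝ => ‖Φ t q.1 - hub4‖ :=
      ((hΦ.cont.comp (continuous_const.prodMk continuous_fst)).sub continuous_const).norm
    exact isClosed_le c1 continuous_const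
  have cend : Continuous fun q : P4 × ℝ => fs s (Φ q.2 q.1) :=
    (continuous_fs s).comp (hΦ.cont.comp (continuous_snd.prodMk continuous_fst))
  let S5 : Set (P4 × ℝ) := {q | fs s (Φ q.2 q.1) ∈ Cs}
  have hS5 : IsClosed S5 := hCs.preimage cend
  let S6 : Set (P4 × ℝ) := {q | FinE (fs s (Φ q.2 q.1))}
  have hS6 : IsClosed S6 := isClosed_FinE.preimage cend
  let G : ℕ → Set (P4 × ℝ) := fun n => B ∩ (S1 ∩ (S2 ∩ (S4 n ∩ (S5 ∩ S6))))
  have hGcl : ∀ n, IsClosed (G n) := fun n =>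
    hB.isClosed.inter (hS1.inter (hS2.inter ((hS4 n).inter (hS5.inter hS6))))
  have hGne : ∀ n, (G n).Nonempty := by
    intro n
    obtain ⟨a, b, x, ψ, hab, hx, hψ, hends, hcl⟩ := hGε ε hε hε2 Φ hΦ n
    obtain ⟨a', b', T, y, ha', hab', hb', hT, hy, hcross, hcl'⟩ := hFw φ hφ a b (fun p => (x p).2) ψ hab
      (continuous_snd.comp_continuousOn hx) hψ hends
      (fun p hp => ⟨(hcl p hp).1, (hcl p hp).2.1, (hcl p hp).2.2.1⟩)
    have hsub : Icc a' b' ⊆ Icc a b := Icc_subset_Icc ha' hb'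
    have hyE : ∀ p ∈ Icc a' b', Near δ (fs s (Φ (T p) (x p))) (y p) := by
      intro p hp
      obtain ⟨h1, h2, h3⟩ := hcl' p hp
      have h4 := hcl p (hsub hp)
      have h5 := near_fs hs' (hclose (x p) h4.2.2.2.1 h4.2.2.2.2.1 (T p) h1)
      rw [(Tr_end hA2 hK0 hφ _ _ _ h2).1]
      exact h5
    have hfin : ∀ p ∈ Icc a' b', FinE (fs s (Φ (T p) (x p))) := fun p hp =>
      finE_of (hyE p hp) hδ1 (hcl' p hp).2.2
    have hcont : ContinuousOn (fun p => fs s (Φ (T p) (x p))) (Icc a' b') :=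
      (continuous_fs s).comp_continuousOn (hΦ.cont.comp_continuousOn (hT.prodMk (hx.mono hsub)))
    have hcr : Cross (fun p => ellE (fs s (Φ (T p) (x p)))) a' b' (-(ell0/2)) (ell0/2) := by
      have ea := ellE_sub (hyE a' ⟨le_rfl, hab'.le⟩) hδ1 (hcl' a' ⟨le_rfl, hab'.le⟩).2.2
      have eb := ellE_sub (hyE b' ⟨hab'.le, le_rfl⟩) hδ1 (hcl' b' ⟨hab'.le, le_rfl⟩).2.2
      rw [abs_le] at ea eb
      rcases hcross with ⟨h1, h2⟩ | ⟨h1, h2⟩
      · left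
        exact ⟨by linarith [ea.2], by linarith [eb.1]⟩
      · right
        exact ⟨by linarith [ea.1], by linarith [eb.2]⟩
    obtain ⟨p, hp, hpC⟩ := hIVT a' b' _ hab' hcont hfin hcr
    obtain ⟨h1, h2, h3⟩ := hcl' p hp
    have h4 := hcl p (hsub hp)
    refine ⟨(x p, T p), ⟨?_, h1⟩, ⟨y p, h2⟩, ⟨h4.2.2.2.1, h4.2.2.2.2.1⟩, h4.2.2.2.2.2, hpC, hfin p hp⟩
    rw [Metric.mem_closedBall, dist_eq_norm]
    have h5 := h4.2.2.2.2.2 0 ⟨by simp, le_rfl⟩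
    rw [hΦ.zero] at h5
    exact h5
  have hGd : ∀ n, G (n + 1) ⊆ G n := by
    rintro n q ⟨h1, h2, h3, h4, h5⟩
    refine ⟨h1, h2, h3, fun t ht => h4 t ⟨?_, ht.2⟩, h5⟩
    push_cast
    linarith [ht.1]
  obtain ⟨q, hq⟩ := IsCompact.nonempty_iInter_of_sequence_nonempty_isCompact_isClosed G hGd hGne
    (hB.of_isClosed_subset (hGcl 0) inter_subset_left) hGcl
  rw [mem_iInter] at hq
  obtain ⟨⟨-, hqT⟩, ⟨y, hqTr⟩, ⟨hq1, hq2⟩, -, hqC, hqF⟩ := hq 0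
  set X0 := q.1 with hX0
  set T := q.2 with hT
  have hhub : ∀ t ≤ 0, ‖Φ t X0 - hub4‖ ≤ 1/50 := by
    intro t ht
    obtain ⟨n, hn⟩ := exists_nat_ge (-t)
    obtain ⟨-, -, -, h4, -⟩ := hq n
    exact h4 t ⟨by linarith, ht⟩
  obtain ⟨hend, hT0, hfar⟩ := Tr_end hA2 hK0 hφ _ _ _ hqTr
  have hnear : ∀ t ∈ Icc 0 T, Near δ (Φ t X0) (φ t X0.2) := fun t ht =>
    hclose X0 hq1 hq2 t ⟨ht.1, ht.2.trans hqT.2⟩
  obtain ⟨L, hL1, hL2, hL3, hL4, -⟩ := transfer hφ hneg (ε := ε) hδ3 hm hδ2 (tl w) X0.2 T y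
    (fun t => Φ t X0) hqTr (fun t _ => hΦ.deriv t X0) hnear
  rw [tl_tl] at hL1
  obtain ⟨ω2, X2, hω2, h0, h1, h2, h3, h4⟩ := hColl _ hqC hqF
  have hgood : ∀ t ≤ T, ((Φ t X0).1.1 ≠ 0 ∧ (Φ t X0).2.1 + (Φ t X0).1.1/2 ≠ 0 ∧
      (Φ t X0).2.1 - (Φ t X0).1.1/2 ≠ 0) ∧ fe rho0 ε (Φ t X0) = fe 0 ε (Φ t X0) := by
    intro t ht
    rcases le_total t 0 with h | h
    · obtain ⟨-, g1, g2, g3⟩ := hubnear (hhub t h)
      refine ⟨⟨?_, ?_, ?_⟩, fe_eq_of g1 g2 g3 ε⟩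
      · exact norm_pos_iff.1 (hr0.trans_le g1)
      · exact norm_pos_iff.1 (hr0.trans_le g2)
      · exact norm_pos_iff.1 (hr0.trans_le g3)
    · have hN := hnear t ⟨h, ht⟩
      exact ⟨hN.ne hδ3 (hfar t ⟨h, ht⟩), hN.fe_eq hδ3 (hfar t ⟨h, ht⟩) ε⟩
  obtain ⟨X, hX⟩ := glue hs' X2 hT0 hω2 (fun t => hΦ.deriv t X0) hgood
    (fun t ht => (hubnear (hhub t ht)).1) h0 h1 h2 h3 h4 hL1 hL2 hL3 hL4
  exact ⟨ε, T + ω2, X, hε, hX⟩

end Run7.h874
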