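import Pool.Agent.Run7.h874.Iface

/-!
# Piece K (helper690): from the rotating frame to Newton's equations
-/

set_option autoImplicit false
set_option linter.all false

namespace Run7.h874

open Complex Set

noncomputable def cA (ε : ℝ) : Fin 3 → ℂ := ![-(ε:ℂ)/(1+ε), -(ε:ℂ)/(1+ε), 1/(1+ε)]
noncomputable def cB : Fin 3 → ℂ := ![-1/2, 1/2, 0]
noncomputable def mK (ε : ℝ) : Fin 3 → ℝ := ![1/2, 1/2, ε]
noncomputable def eK (t : ℝ) : ℂ := exp (t * I)
noncomputable def posK (ε : ℝ) (a : Fin 3) (x : P4) : ℂ := cA ε a * x.2.1 + cB a * x.1.1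
noncomputable def velK (ε : ℝ) (a : Fin 3) (x : P4) : ℂ := cA ε a * x.2.2 + cB a * x.1.2
noncomputable def accK (ε : ℝ) (a : Fin 3) (x : P4) : ℂ :=
  cA ε a * (fe 0 ε x).2.2 + cB a * (fe 0 ε x).1.2
noncomputable def qK (ε : ℝ) (X : ℝ → P4) (a : Fin 3) (t : ℝ) : ℂ := eK t * posK ε a (X t)

theorem norm_eK (t : ℝ) : ‖eK t‖ = 1 := norm_exp_ofReal_mul_I t

theorem eK_ne (t : ℝ) : eK t ≠ 0 := exp_ne_zero _

theorem hasDerivAt_eK (t : ℝ) : HasDerivAt eK (eK t * I) t := by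
  have h1 : HasDerivAt (fun s : ℝ => (s : ℂ) * I) (1 * I) t :=
    (ofRealCLM.hasDerivAt (x := t)).mul_const I
  rw [one_mul] at h1
  exact h1.cexp

theorem hasDerivAt_posK {ε : ℝ} {X : ℝ → P4} {D : P4} {t : ℝ} (h : HasDerivAt X D t) (a : Fin 3) :
    HasDerivAt (fun s => posK ε a (X s)) (cA ε a * D.2.1 + cB a * D.1.1) t := by
  have h1 : HasDerivAt (fun s => (X s).1.1) D.1.1 t := h.fst.fst
  have h2 : HasDerivAt (fun s => (X s).2.1) D.2.1 t := h.snd.fst
  exact (h2.const_mul _).add (h1.const_mul _)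

theorem hasDerivAt_velK {ε : ℝ} {X : ℝ → P4} {D : P4} {t : ℝ} (h : HasDerivAt X D t) (a : Fin 3) :
    HasDerivAt (fun s => velK ε a (X s)) (cA ε a * D.2.2 + cB a * D.1.2) t := by
  have h1 : HasDerivAt (fun s => (X s).1.2) D.1.2 t := h.fst.snd
  have h2 : HasDerivAt (fun s => (X s).2.2) D.2.2 t := h.snd.snd
  exact (h2.const_mul _).add (h1.const_mul _)

theorem hasDerivAt_qK {ε : ℝ} {X : ℝ → P4} {t : ℝ} (h : HasDerivAt X (fe 0 ε (X t)) t) (a : Fin 3) :
    HasDerivAt (qK ε X a) (eK t * (I * posK ε a (X t) + velK ε a (X t))) t := by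
  have h1 := (hasDerivAt_eK t).mul (hasDerivAt_posK (ε := ε) h a)
  refine h1.congr_deriv ?_
  show eK t * I * posK ε a (X t) + eK t * (cA ε a * (X t).2.2 + cB a * (X t).1.2) = _
  unfold velK
  ring

theorem hasDerivAt_dqK {ε : ℝ} {X : ℝ → P4} {t : ℝ} (h : HasDerivAt X (fe 0 ε (X t)) t) (a : Fin 3) :
    HasDerivAt (fun s => eK s * (I * posK ε a (X s) + velK ε a (X s)))
      (eK t * (-posK ε a (X t) + 2 * I * velK ε a (X t) + accK ε a (X t))) t := by
  have h1 := (hasDerivAt_eK t).mul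
    (((hasDerivAt_posK (ε := ε) h a).const_mul I).add (hasDerivAt_velK (ε := ε) h a))
  refine h1.congr_deriv ?_
  show eK t * I * (I * posK ε a (X t) + velK ε a (X t)) +
    eK t * (I * (cA ε a * (X t).2.2 + cB a * (X t).1.2) + accK ε a (X t)) = _
  have h2 : cA ε a * (X t).2.2 + cB a * (X t).1.2 = velK ε a (X t) := rfl
  rw [h2]
  linear_combination (eK t * posK ε a (X t)) * I_sq

theorem gc_zero (z : ℂ) : gc 0 z = z / ((‖z‖ ^ 3 : ℝ) : ℂ) := by
  unfold gc
  rw [max_eq_left (norm_nonneg z), real_smul]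
  push_cast
  rw [div_eq_mul_inv, mul_comm]

theorem gc_neg (ϱ : ℝ) (z : ℂ) : gc ϱ (-z) = -gc ϱ z := by
  unfold gc
  rw [norm_neg, smul_neg]

theorem force (e z : ℂ) (he : ‖e‖ = 1) (m : ℝ) :
    (m : ℂ) * (e * z) / ((‖e * z‖ ^ 3 : ℝ) : ℂ) = e * ((m : ℂ) * gc 0 z) := by
  rw [gc_zero, norm_mul, he, one_mul]
  ring

theorem pos10 (ε : ℝ) (x : P4) : posK ε 1 x - posK ε 0 x = x.1.1 := by
  simp only [posK, cA, cB, Matrix.cons_val_zero, Matrix.cons_val_one]
  ring

theorem pos20 {ε : ℝ} (hε : 0 < ε) (x : P4) : posK ε 2 x - posK ε 0 x = x.2.1 + x.1.1 / 2 := by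
  have h1 : (1 + (ε : ℂ)) ≠ 0 := by
    exact_mod_cast (by positivity : (1 + ε : ℝ) ≠ 0)
  simp only [posK, cA, cB, Matrix.cons_val_zero, Matrix.cons_val]
  field_simp
  ring

theorem pos21 {ε : ℝ} (hε : 0 < ε) (x : P4) : posK ε 2 x - posK ε 1 x = x.2.1 - x.1.1 / 2 := by
  have h1 := pos20 hε x
  have h2 := pos10 ε x
  linear_combination h1 - h2

theorem newton {ε : ℝ} (hε : 0 < ε) (e : ℂ) (he : ‖e‖ = 1) (x : P4) (a : Fin 3) :
    ∑ b ∈ Finset.univ.erase a,
      ((mK ε b : ℝ) : ℂ) * (e * posK ε b x - e * posK ε a x) /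
        ((‖e * posK ε b x - e * posK ε a x‖ ^ 3 : ℝ) : ℂ) =
      e * (-posK ε a x + 2 * I * velK ε a x + accK ε a x) := by
  have h1 : (1 + (ε : ℂ)) ≠ 0 := by
    exact_mod_cast (by positivity : (1 + ε : ℝ) ≠ 0)
  have e10 : e * posK ε 1 x - e * posK ε 0 x = e * x.1.1 := by rw [← mul_sub, pos10]
  have e01 : e * posK ε 0 x - e * posK ε 1 x = e * (-x.1.1) := by
    rw [← mul_sub, ← neg_sub, pos10]
  have e20 : e * posK ε 2 x - e * posK ε 0 x = e * (x.2.1 + x.1.1 / 2) := by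
    rw [← mul_sub, pos20 hε]
  have e02 : e * posK ε 0 x - e * posK ε 2 x = e * (-(x.2.1 + x.1.1 / 2)) := by
    rw [← mul_sub, ← neg_sub, pos20 hε]
  have e21 : e * posK ε 2 x - e * posK ε 1 x = e * (x.2.1 - x.1.1 / 2) := by
    rw [← mul_sub, pos21 hε]
  have e12 : e * posK ε 1 x - e * posK ε 2 x = e * (-(x.2.1 - x.1.1 / 2)) := by
    rw [← mul_sub, ← neg_sub, pos21 hε]
  have u0 : (Finset.univ : Finset (Fin 3)).erase 0 = {1, 2} := by decide
  have u1 : (Finset.univ : Finset (Fin 3)).erase 1 = {0, 2} := by decide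
  have u2 : (Finset.univ : Finset (Fin 3)).erase 2 = {0, 1} := by decide
  have m0 : mK ε 0 = 1/2 := rfl
  have m1 : mK ε 1 = 1/2 := rfl
  have m2 : mK ε 2 = ε := rfl
  fin_cases a
  · show ∑ b ∈ Finset.univ.erase (0 : Fin 3), ((mK ε b : ℝ) : ℂ) * (e * posK ε b x - e * posK ε 0 x) /
        ((‖e * posK ε b x - e * posK ε 0 x‖ ^ 3 : ℝ) : ℂ) =
      e * (-posK ε 0 x + 2 * I * velK ε 0 x + accK ε 0 x)
    rw [u0, Finset.sum_pair (by decide), e10, e20, force _ _ he, force _ _ he, m1, m2]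
    simp only [posK, velK, accK, fe, cA, cB, Matrix.cons_val_zero, Matrix.cons_val]
    push_cast
    field_simp
    ring
  · show ∑ b ∈ Finset.univ.erase (1 : Fin 3), ((mK ε b : ℝ) : ℂ) * (e * posK ε b x - e * posK ε 1 x) /
        ((‖e * posK ε b x - e * posK ε 1 x‖ ^ 3 : ℝ) : ℂ) =
      e * (-posK ε 1 x + 2 * I * velK ε 1 x + accK ε 1 x)
    rw [u1, Finset.sum_pair (by decide), e01, e21, force _ _ he, force _ _ he, m0, m2, gc_neg]
    simp only [posK, velK, accK, fe, cA, cB, Matrix.cons_val_one, Matrix.cons_val]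
    push_cast
    field_simp
    ring
  · show ∑ b ∈ Finset.univ.erase (2 : Fin 3), ((mK ε b : ℝ) : ℂ) * (e * posK ε b x - e * posK ε 2 x) /
        ((‖e * posK ε b x - e * posK ε 2 x‖ ^ 3 : ℝ) : ℂ) =
      e * (-posK ε 2 x + 2 * I * velK ε 2 x + accK ε 2 x)
    rw [u2, Finset.sum_pair (by decide), e02, e12, force _ _ he, force _ _ he, m0, m1, gc_neg, gc_neg]
    simp only [posK, velK, accK, fe, cA, cB, Matrix.cons_val]
    push_cast
    field_simp
    ring

theorem collinear_det {p q r : ℂ} (h : Collinear ℝ ({p, q, r} : Set ℂ)) :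
    ((r - p) * (starRingEnd ℂ) (q - p)).im = 0 := by
  obtain ⟨v, hv⟩ := (collinear_iff_of_mem (k := ℝ) (p₀ := p) (by simp)).1 h
  obtain ⟨a, ha⟩ := hv q (by simp)
  obtain ⟨b, hb⟩ := hv r (by simp)
  rw [vadd_eq_add] at ha hb
  have h1 : q - p = (a : ℂ) * v := by
    rw [ha, real_smul]
    ring
  have h2 : r - p = (b : ℂ) * v := by
    rw [hb, real_smul]
    ring
  rw [h1, h2, map_mul, conj_ofReal]
  have h3 : (b : ℂ) * v * ((a : ℂ) * (starRingEnd ℂ) v) = ((b * a * normSq v : ℝ) : ℂ) := by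
    push_cast
    rw [← mul_conj]
    ring
  rw [h3, ofReal_im]

theorem posK_ne {ε : ℝ} (hε : 0 < ε) {x : P4} (h1 : x.1.1 ≠ 0) (h2 : x.2.1 + x.1.1 / 2 ≠ 0)
    (h3 : x.2.1 - x.1.1 / 2 ≠ 0) (a b : Fin 3) (hab : a ≠ b) : posK ε a x ≠ posK ε b x := by
  have e10 := pos10 ε x
  have e20 := pos20 hε x
  have e21 := pos21 hε x
  intro h
  fin_cases a <;> fin_cases b
  · exact hab rfl
  · apply h1
    rw [← e10, sub_eq_zero]
    exact h.symm
  · apply h2
    rw [← e20, sub_eq_zero]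
    exact h.symm
  · apply h1
    rw [← e10, sub_eq_zero]
    exact h
  · exact hab rfl
  · apply h3
    rw [← e21, sub_eq_zero]
    exact h.symm
  · apply h2
    rw [← e20, sub_eq_zero]
    exact h
  · apply h3
    rw [← e21, sub_eq_zero]
    exact h
  · exact hab rfl

theorem sbtw_par {x : ℝ} (c0 b c : Fin 3) (hb : b ≠ c0) (hc : c ≠ c0) (hbc : b ≠ c)
    (hm : (c0 = 0 ∧ x < -1/2) ∨ (c0 = 1 ∧ 1/2 < x) ∨ (c0 = 2 ∧ -1/2 < x ∧ x < 1/2)) :
    Sbtw ℝ ((![-1/2, 1/2, x] : Fin 3 → ℝ) b) ((![-1/2, 1/2, x] : Fin 3 → ℝ) c0)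
      ((![-1/2, 1/2, x] : Fin 3 → ℝ) c) := by
  rcases hm with ⟨rfl, hx⟩ | ⟨rfl, hx⟩ | ⟨rfl, hx, hx2⟩
  · fin_cases b <;> fin_cases c
    · exact absurd rfl hb
    · exact absurd rfl hb
    · exact absurd rfl hb
    · exact absurd rfl hc
    · exact absurd rfl hbc
    · exact (Sbtw.of_lt_of_lt (x := x) (y := -1/2) (z := 1/2) hx (by norm_num)).symm
    · exact absurd rfl hc
    · exact Sbtw.of_lt_of_lt (x := x) (y := -1/2) (z := 1/2) hx (by norm_num)
    · exact absurd rfl hbc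
  · fin_cases b <;> fin_cases c
    · exact absurd rfl hbc
    · exact absurd rfl hc
    · exact Sbtw.of_lt_of_lt (x := -1/2) (y := 1/2) (z := x) (by norm_num) hx
    · exact absurd rfl hb
    · exact absurd rfl hb
    · exact absurd rfl hb
    · exact (Sbtw.of_lt_of_lt (x := -1/2) (y := 1/2) (z := x) (by norm_num) hx).symm
    · exact absurd rfl hc
    · exact absurd rfl hbc
  · fin_cases b <;> fin_cases c
    · exact absurd rfl hbc
    · exact Sbtw.of_lt_of_lt (x := -1/2) (y := x) (z := 1/2) hx hx2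
    · exact absurd rfl hc
    · exact (Sbtw.of_lt_of_lt (x := -1/2) (y := x) (z := 1/2) hx hx2).symm
    · exact absurd rfl hbc
    · exact absurd rfl hc
    · exact absurd rfl hb
    · exact absurd rfl hb
    · exact absurd rfl hb

/-- Piece K. -/
theorem pK (hJ : StmtJ) :
    ∀ w : List (Fin 3), ∃ m : Fin 3 → ℝ, (∀ a, 0 < m a) ∧
      ∀ Sol : EReal → EReal → (Fin 3 → ℝ → ℂ) → Prop,
        (∀ (α ω : EReal) (q : Fin 3 → ℝ → ℂ), Sol α ω q ↔
          ∀ t : ℝ, α < (t : EReal) → (t : EReal) < ω →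
            (∀ a b : Fin 3, a ≠ b → q a t ≠ q b t) ∧
            ∀ a : Fin 3, HasDerivAt (q a) (deriv (q a) t) t ∧
              HasDerivAt (deriv (q a))
                (∑ b ∈ Finset.univ.erase a,
                  (m b : ℂ) * (q b t - q a t) / ((‖q b t - q a t‖ ^ 3 : ℝ) : ℂ)) t) →
        ∃ (α ω : EReal) (q : Fin 3 → ℝ → ℂ), α < ω ∧ Sol α ω q ∧
          (∀ (α' ω' : EReal) (q' : Fin 3 → ℝ → ℂ), Sol α' ω' q' → α' ≤ α → ω ≤ ω' →
            (∀ t : ℝ, α < (t : EReal) → (t : EReal) < ω → ∀ a, q' a t = q a t) →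
            α' = α ∧ ω' = ω) ∧
          ∃ τ : Fin w.length → ℝ, StrictMono τ ∧
            (∀ i, α < (τ i : EReal) ∧ (τ i : EReal) < ω) ∧
            (∀ t : ℝ, α < (t : EReal) → (t : EReal) < ω →
              Collinear ℝ ({q 0 t, q 1 t, q 2 t} : Set ℂ) → ∃ i, τ i = t) ∧
            ∀ (i : Fin w.length) (b c : Fin 3), b ≠ w.get i → c ≠ w.get i → b ≠ c →
              Sbtw ℝ (q b (τ i)) (q (w.get i) (τ i)) (q c (τ i)) := by
  intro w
  obtain ⟨ε, ω, X, hε, hX, hne, ⟨σ, hσ, hcol⟩, τ, hτ1, hτ2, hτ3, hτ4⟩ := hJ w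
  refine ⟨mK ε, ?_, ?_⟩
  · intro a
    fin_cases a
    · show (0 : ℝ) < 1/2
      norm_num
    · show (0 : ℝ) < 1/2
      norm_num
    · exact hε
  intro Sol hSol
  have hder : ∀ t < ω, ∀ a, HasDerivAt (qK ε X a)
      (eK t * (I * posK ε a (X t) + velK ε a (X t))) t := fun t ht a => hasDerivAt_qK (hX t ht) a
  have hS : Sol ⊥ (ω : EReal) (qK ε X) := by
    rw [hSol]
    intro t _ ht
    have ht' : t < ω := EReal.coe_lt_coe_iff.1 ht
    obtain ⟨n1, n2, n3⟩ := hne t ht'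
    refine ⟨?_, ?_⟩
    · intro a b hab heq
      exact posK_ne hε n1 n2 n3 a b hab (mul_left_cancel₀ (eK_ne t) heq)
    · intro a
      refine ⟨(hder t ht' a).differentiableAt.hasDerivAt, ?_⟩
      have h1 : deriv (qK ε X a) =ᶠ[nhds t] fun s => eK s * (I * posK ε a (X s) + velK ε a (X s)) := by
        filter_upwards [Iio_mem_nhds ht'] with s hs
        exact (hder s hs a).deriv
      have h2 := (hasDerivAt_dqK (ε := ε) (hX t ht') a).congr_of_eventuallyEq h1
      have h3 := newton hε (eK t) (norm_eK t) (X t) a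
      rw [← h3] at h2
      exact h2
  refine ⟨⊥, (ω : EReal), qK ε X, EReal.bot_lt_coe ω, hS, ?_, τ, hτ1,
    fun i => ⟨EReal.bot_lt_coe _, EReal.coe_lt_coe_iff.2 (hτ2 i)⟩, ?_, ?_⟩
  · -- maximality
    intro α' ω' q' hq' hα hω hag
    have hα' : α' = ⊥ := le_bot_iff.1 hα
    refine ⟨hα', ?_⟩
    by_contra hcon
    have hlt : (ω : EReal) < ω' := lt_of_le_of_ne hω (Ne.symm hcon)
    have h1 := (hSol _ _ _).1 hq' ω (by rw [hα']; exact EReal.bot_lt_coe ω) hlt
    -- the colliding pair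
    have hpair : ∃ b : Fin 3, (2 : Fin 3) ≠ b ∧ ∀ t, ‖posK ε 2 (X t) - posK ε b (X t)‖ =
        ‖(X t).2.1 + σ * (X t).1.1 / 2‖ := by
      rcases hσ with rfl | rfl
      · refine ⟨0, by decide, fun t => ?_⟩
        rw [pos20 hε, one_mul]
      · refine ⟨1, by decide, fun t => ?_⟩
        rw [pos21 hε]
        congr 1
        ring
    obtain ⟨b, hb, hbn⟩ := hpair
    have hc2 : ContinuousAt (q' 2) ω := (h1.2 2).1.continuousAt
    have hcb : ContinuousAt (q' b) ω := (h1.2 b).1.continuousAt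
    have hf : ContinuousAt (fun t => ‖q' 2 t - q' b t‖) ω := (hc2.sub hcb).norm
    have hpos : 0 < ‖q' 2 ω - q' b ω‖ := by
      rw [norm_pos_iff, sub_ne_zero]
      exact h1.1 2 b hb
    have hev : ∀ᶠ t in nhds ω, ‖q' 2 ω - q' b ω‖ / 2 < ‖q' 2 t - q' b t‖ :=
      hf.eventually (lt_mem_nhds (by linarith))
    obtain ⟨η, hη, hη2⟩ := Metric.eventually_nhds_iff.1 hev
    obtain ⟨t, ht, hsm⟩ := hcol (‖q' 2 ω - q' b ω‖ / 2) (by positivity) (ω - η) (by linarith)
    have h2 := hη2 (y := t) (by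
      rw [Real.dist_eq, abs_lt]
      constructor <;> linarith [ht.1, ht.2])
    have h3 : ‖q' 2 t - q' b t‖ = ‖(X t).2.1 + σ * (X t).1.1 / 2‖ := by
      have hl : (t : EReal) < (ω : EReal) := EReal.coe_lt_coe_iff.2 ht.2
      rw [hag t (EReal.bot_lt_coe t) hl 2, hag t (EReal.bot_lt_coe t) hl b, ← hbn t]
      unfold qK
      rw [← mul_sub, norm_mul, norm_eK, one_mul]
    rw [h3] at h2
    linarith
  · -- eclipses
    intro t _ ht hcl
    have ht' : t < ω := EReal.coe_lt_coe_iff.1 ht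
    apply hτ3 t ht'
    have h1 := collinear_det hcl
    have h2 : qK ε X 2 t - qK ε X 0 t = eK t * ((X t).2.1 + (X t).1.1 / 2) := by
      unfold qK
      rw [← mul_sub, pos20 hε]
    have h3 : qK ε X 1 t - qK ε X 0 t = eK t * (X t).1.1 := by
      unfold qK
      rw [← mul_sub, pos10]
    rw [h2, h3, map_mul] at h1
    have h4 : eK t * ((X t).2.1 + (X t).1.1 / 2) * ((starRingEnd ℂ) (eK t) * (starRingEnd ℂ) (X t).1.1) =
        (X t).2.1 * (starRingEnd ℂ) (X t).1.1 + ((normSq (X t).1.1 / 2 : ℝ) : ℂ) := by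
      have h5 : eK t * (starRingEnd ℂ) (eK t) = 1 := by
        rw [mul_conj, normSq_eq_norm_sq, norm_eK]
        norm_num
      have h6 : (X t).1.1 * (starRingEnd ℂ) (X t).1.1 = (normSq (X t).1.1 : ℂ) := mul_conj _
      push_cast
      linear_combination ((X t).2.1 + (X t).1.1 / 2) * (starRingEnd ℂ) (X t).1.1 * h5 + (1/2) * h6
    rw [h4, add_im, ofReal_im, add_zero] at h1
    exact h1
  · -- the middle body
    intro i b c hb hc hbc
    obtain ⟨h1, h2⟩ := hτ4 i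
    obtain ⟨n1, n2, n3⟩ := hne (τ i) (hτ2 i)
    set x : ℝ := ((X (τ i)).2.1 / (X (τ i)).1.1).re with hx
    have hZ : (X (τ i)).2.1 = (x : ℂ) * (X (τ i)).1.1 := by
      have h3 : ((X (τ i)).2.1 / (X (τ i)).1.1).im = 0 := by
        have h4 : (X (τ i)).2.1 / (X (τ i)).1.1 =
            ((X (τ i)).2.1 * (starRingEnd ℂ) (X (τ i)).1.1) * (((normSq (X (τ i)).1.1)⁻¹ : ℝ) : ℂ) := by
          rw [div_eq_mul_inv, Complex.inv_def]
          ring
        rw [h4, mul_im, h1, ofReal_im]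
        ring
      have h5 : (X (τ i)).2.1 / (X (τ i)).1.1 = (x : ℂ) := by
        apply Complex.ext
        · rw [ofReal_re]
        · rw [ofReal_im, h3]
      rw [← h5]
      field_simp
    let B : ℂ := eK (τ i) * (cA ε 0 * (X (τ i)).2.1)
    have hq : ∀ d : Fin 3, qK ε X d (τ i) =
        AffineMap.lineMap B (B + eK (τ i) * (X (τ i)).1.1) ((![-1/2, 1/2, x] : Fin 3 → ℝ) d) := by
      intro d
      rw [AffineMap.lineMap_apply, vadd_eq_add, vsub_eq_sub, real_smul, add_sub_cancel_left]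
      have h10 := pos10 ε (X (τ i))
      have h20 := pos20 hε (X (τ i))
      have h0 : posK ε 0 (X (τ i)) = cA ε 0 * (X (τ i)).2.1 - (X (τ i)).1.1 / 2 := by
        simp only [posK, cA, cB, Matrix.cons_val_zero]
        ring
      fin_cases d
      · show eK (τ i) * posK ε 0 (X (τ i)) = ((-1/2 : ℝ) : ℂ) * (eK (τ i) * (X (τ i)).1.1) + B
        rw [h0]
        push_cast
        simp only [B]
        ring
      · show eK (τ i) * posK ε 1 (X (τ i)) = ((1/2 : ℝ) : ℂ) * (eK (τ i) * (X (τ i)).1.1) + B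
        rw [show posK ε 1 (X (τ i)) = posK ε 0 (X (τ i)) + (X (τ i)).1.1 by rw [← h10]; ring, h0]
        push_cast
        simp only [B]
        ring
      · show eK (τ i) * posK ε 2 (X (τ i)) = (x : ℂ) * (eK (τ i) * (X (τ i)).1.1) + B
        rw [show posK ε 2 (X (τ i)) = posK ε 0 (X (τ i)) + ((X (τ i)).2.1 + (X (τ i)).1.1 / 2) by
          rw [← h20]; ring, h0]
        simp only [B]
        linear_combination eK (τ i) * hZ
    have hinj : Function.Injective (AffineMap.lineMap B (B + eK (τ i) * (X (τ i)).1.1) : ℝ →ᵃ[ℝ] ℂ) := by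
      apply AffineMap.lineMap_injective
      intro h
      have h6 : eK (τ i) * (X (τ i)).1.1 = 0 := by
        have h7 : B + 0 = B + eK (τ i) * (X (τ i)).1.1 := by rw [add_zero]; exact h
        exact (add_left_cancel h7).symm
      rcases mul_eq_zero.1 h6 with h7 | h7
      · exact eK_ne _ h7
      · exact n1 h7
    rw [hq b, hq c, hq (w.get i), hinj.sbtw_map_iff]
    exact sbtw_par (w.get i) b c hb hc hbc h2

end Run7.h874
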