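import Pool.Agent.Run7.h874.Iface

/-!
# Piece F (helper690): chains of connections in the restricted problem
-/

set_option autoImplicit false
set_option linter.all false

namespace Run7.h874

open Complex Set

theorem reg_mono {c : Fin 3} {m m' x : ℝ} (h : reg c m x) (hm : m' ≤ m) : reg c m' x := by
  rcases h with ⟨h1, h2⟩ | ⟨h1, h2⟩ | ⟨h1, h2, h3⟩
  · exact Or.inl ⟨h1, by linarith⟩
  · exact Or.inr (Or.inl ⟨h1, by linarith⟩)
  · exact Or.inr (Or.inr ⟨h1, by linarith, by linarith⟩)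

theorem Seg_mono {φ : ℝ → P2 → P2} {c : Fin 3} {m m' T : ℝ} {x : P2} (h : Seg φ c m x T)
    (hm : m' ≤ m) : Seg φ c m' x T := by
  obtain ⟨t1, t2, h1, h2, h3, h4, h5, h6, h7⟩ := h
  refine ⟨t1, t2, h1, h2, h3, h4, fun t ht => hm.trans (h5 t ht), fun t ht => ⟨?_, ?_⟩, fun t ht => ?_⟩
  · have := (h6 t ht).1
    linarith
  · exact reg_mono (h6 t ht).2 hm
  · have := h7 t ht
    linarith

theorem Tr_mono {φ : ℝ → P2 → P2} {m m' : ℝ} (hm : m' ≤ m) {y : P2} : ∀ (w : List (Fin 3)) (x : P2)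
    (T : ℝ), Tr φ w m x T y → Tr φ w m' x T y
  | [], x, T, h => by
    obtain ⟨⟨h1, h2⟩, h3⟩ := h
    exact ⟨⟨h1, fun t ht => ⟨(h2 t ht).1, hm.trans (h2 t ht).2⟩⟩, h3⟩
  | c :: w, x, T, h => by
    obtain ⟨T1, hT1, h1, h2⟩ := h
    exact ⟨T1, hT1, Seg_mono h1 hm, Tr_mono hm w _ _ h2⟩

/-- a silent prefix -/
theorem Tr_prefix {φ : ℝ → P2 → P2} {F : P2 → P2} (hφ : IsFlow F φ) {m s : ℝ} {y : P2} (hs : 0 ≤ s)
    (w : List (Fin 3)) {x : P2} {T : ℝ} (hp : ∀ t ∈ Icc 0 s, far (φ t x) ∧ m ≤ (φ t x).1.im)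
    (h : Tr φ w m (φ s x) T y) : Tr φ w m x (s + T) y := by
  have hadd : ∀ t, φ t x = φ (t - s) (φ s x) := by
    intro t
    have h1 := hφ.add s (t - s) x
    rw [show s + (t - s) = t by ring] at h1
    exact h1
  cases w with
  | nil =>
    obtain ⟨⟨h1, h2⟩, h3⟩ := h
    refine ⟨⟨by linarith, fun t ht => ?_⟩, ?_⟩
    · rcases le_total t s with hts | hts
      · exact hp t ⟨ht.1, hts⟩
      · rw [hadd t]
        exact h2 _ ⟨by linarith, by linarith [ht.2]⟩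
    · rw [h3, hφ.add]
  | cons c w =>
    obtain ⟨T1, hT1, ⟨t1, t2, h1, h2, h3, h4, h5, h6, h7⟩, h8⟩ := h
    refine ⟨s + T1, ⟨by linarith [hT1.1], by linarith [hT1.2]⟩, ⟨s + t1, s + t2, by linarith,
      by linarith, by linarith, ?_, ?_, ?_, ?_⟩, ?_⟩
    · intro t ht
      rcases le_total t s with hts | hts
      · exact (hp t ⟨ht.1, hts⟩).1
      · rw [hadd t]
        exact h4 _ ⟨by linarith, by linarith [ht.2]⟩
    · intro t ht
      rcases le_total t s with hts | hts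
      · exact (hp t ⟨ht.1, hts⟩).2
      · rw [hadd t]
        exact h5 _ ⟨by linarith, by linarith [ht.2]⟩
    · intro t ht
      rw [hadd t]
      exact h6 _ ⟨by linarith [ht.1], by linarith [ht.2]⟩
    · intro t ht
      rw [hadd t]
      exact h7 _ ⟨by linarith [ht.1], by linarith [ht.2]⟩
    · rw [hφ.add, show s + T - (s + T1) = T - T1 by ring]
      exact h8

theorem hubZ_re : hubZ.re = 0 := by
  simp [hubZ]

theorem hubZ_im : hubZ.im = Real.sqrt 3 / 2 := by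
  simp [hubZ]

/-- near the hub -/
theorem far_of_hub {x : P2} (h1 : ‖x.1 - hubZ‖ ≤ 1/100) (h2 : ‖x.2‖ ≤ 1/100) :
    far x ∧ 1/2 ≤ x.1.im := by
  have hs : (1.73 : ℝ) < Real.sqrt 3 := by
    rw [Real.lt_sqrt (by norm_num)]
    norm_num
  have hs2 : Real.sqrt 3 < 1.74 := by
    rw [Real.sqrt_lt' (by norm_num)]
    norm_num
  have him : |(x.1 - hubZ).im| ≤ 1/100 := (abs_im_le_norm _).trans h1
  rw [sub_im, hubZ_im, abs_le] at him
  have him1 : 4/5 ≤ x.1.im := by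
    linarith [him.1]
  have h3 : ‖x.1‖ ≤ 10 := by
    have e1 : ‖x.1‖ ≤ ‖x.1 - hubZ‖ + ‖hubZ‖ := by
      have := norm_add_le (x.1 - hubZ) hubZ
      rwa [sub_add_cancel] at this
    have e2 : ‖hubZ‖ ≤ 1 := by
      have e3 : ‖hubZ‖ ≤ |hubZ.re| + |hubZ.im| := norm_le_abs_re_add_abs_im _
      rw [hubZ_re, hubZ_im, abs_zero, abs_of_pos (by positivity)] at e3
      linarith
    linarith
  have h4 : 4 * rho0 ≤ ‖x.1 + 1/2‖ := by
    have e1 : |(x.1 + 1/2).im| ≤ ‖x.1 + 1/2‖ := abs_im_le_norm _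
    have e2 : (x.1 + 1/2).im = x.1.im := by
      rw [add_im]
      norm_num
    rw [e2, abs_of_pos (by linarith)] at e1
    unfold rho0
    linarith
  have h5 : 4 * rho0 ≤ ‖x.1 - 1/2‖ := by
    have e1 : |(x.1 - 1/2).im| ≤ ‖x.1 - 1/2‖ := abs_im_le_norm _
    have e2 : (x.1 - 1/2).im = x.1.im := by
      rw [sub_im]
      norm_num
    rw [e2, abs_of_pos (by linarith)] at e1
    unfold rho0
    linarith
  exact ⟨⟨h4, h5, h3, by linarith⟩, by linarith⟩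

theorem flow_contOn {φ : ℝ → P2 → P2} {F : P2 → P2} (hφ : IsFlow F φ) {T : ℝ → ℝ} {x : ℝ → P2}
    {s : Set ℝ} (hT : ContinuousOn T s) (hx : ContinuousOn x s) :
    ContinuousOn (fun p => φ (T p) (x p)) s :=
  hφ.cont.comp_continuousOn (hT.prodMk hx)

theorem pF (hD : StmtD) (hE1 : StmtE1) (hE2 : StmtE2) (hC7 : StmtC7) : StmtF := by
  obtain ⟨-, hEn, hcons⟩ := hC7
  intro w
  induction w with
  | nil =>
    obtain ⟨P, T, m, σ, hP, hT, hm, hσ, hE⟩ := hE2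
    refine ⟨P, 1, T, m, hP, one_pos, hT, hm, ?_⟩
    intro φ hφ a b x ψ hab hx hψ hends hcl
    refine ⟨a, b, fun _ => T, fun p => φ T (x p), le_refl _, hab, le_refl _, continuousOn_const,
      flow_contOn hφ continuousOn_const hx, ?_, ?_⟩
    · have ha := hcl a ⟨le_refl _, hab.le⟩
      have hb := hcl b ⟨hab.le, le_refl _⟩
      have ea := (hE φ hφ (x a) (ψ a) ha.1 ha.2.1).2.2
      have eb := (hE φ hφ (x b) (ψ b) hb.1 hb.2.1).2.2
      rcases hσ with rfl | rfl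
      · rcases hends with ⟨h1, h2⟩ | ⟨h1, h2⟩
        · exact Or.inl ⟨ea.1 (by rw [h1]; ring), eb.2 (by rw [h2]; ring)⟩
        · exact Or.inr ⟨ea.2 (by rw [h1]; ring), eb.1 (by rw [h2]; ring)⟩
      · rcases hends with ⟨h1, h2⟩ | ⟨h1, h2⟩
        · exact Or.inr ⟨ea.2 (by rw [h1]; ring), eb.1 (by rw [h2]; ring)⟩
        · exact Or.inl ⟨ea.1 (by rw [h1]; ring), eb.2 (by rw [h2]; ring)⟩
    · intro p hp
      obtain ⟨h1, h2, h3⟩ := hcl p hp
      obtain ⟨h4, h5, -⟩ := hE φ hφ (x p) (ψ p) h1 h2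
      exact ⟨⟨hT.le, le_refl _⟩, ⟨h4, rfl⟩, h5⟩
  | cons c w ih =>
    obtain ⟨P', ν', Tm', m', hP', hν', hTm', hm', hF'⟩ := ih
    obtain ⟨P, S, δ, T0, m0, σ, hP, hS, hS2, hSδ, hT0, hm0, hσ, hE⟩ := hE1 c
    obtain ⟨hr1, hr2, hr3, hr4, hr5, hr6⟩ := hP'
    obtain ⟨νD, hνD, TD, hTD, hDD⟩ := hD S δ P'.r P'.ϵ P'.θ P'.Δ hS hS2 hSδ hr1 hr2 hr3 hr4 hr5 hr6
    refine ⟨P, min ν' νD, T0 + TD + Tm', min (min m0 m') (1/2), hP, lt_min hν' hνD, by positivity,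
      lt_min (lt_min hm0 hm') (by norm_num), ?_⟩
    intro φ hφ a b x ψ hab hx hψ hends hcl
    -- the entry curve
    have hx' : ContinuousOn (fun p => -φ T0 (x p)) (Icc a b) :=
      (flow_contOn hφ continuousOn_const hx).neg
    have hEx : ∀ p ∈ Icc a b, En (-φ T0 (x p)) = En (x p) := by
      intro p hp
      obtain ⟨h1, h2, h3⟩ := hcl p hp
      obtain ⟨t1, t2, -, -, -, h4, -⟩ := (hE φ hφ (x p) (ψ p) h1 h2).1
      rw [hEn, hcons φ hφ (x p) T0 hT0.le h4]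
    obtain ⟨a1, b1, T1, ψ1, ha1, hab1, hb1, hT1, hψ1, hends1, hcl1⟩ := hDD φ hφ a b
      (fun p => -φ T0 (x p)) hab hx' (fun p hp => by
        obtain ⟨h1, h2, h3⟩ := hcl p hp
        refine ⟨(hE φ hφ (x p) (ψ p) h1 h2).2.1, ?_⟩
        rw [hEx p hp]
        exact h3.trans (min_le_right _ _)) (by
        have ha := hcl a ⟨le_refl _, hab.le⟩
        have hb := hcl b ⟨hab.le, le_refl _⟩
        have ea := (hE φ hφ (x a) (ψ a) ha.1 ha.2.1).2.2
        have eb := (hE φ hφ (x b) (ψ b) hb.1 hb.2.1).2.2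
        rcases hσ with rfl | rfl
        · rcases hends with ⟨h1, h2⟩ | ⟨h1, h2⟩
          · exact Or.inl ⟨ea.1 (by rw [h1]; ring), eb.2 (by rw [h2]; ring)⟩
          · exact Or.inr ⟨ea.2 (by rw [h1]; ring), eb.1 (by rw [h2]; ring)⟩
        · rcases hends with ⟨h1, h2⟩ | ⟨h1, h2⟩
          · exact Or.inr ⟨ea.2 (by rw [h1]; ring), eb.1 (by rw [h2]; ring)⟩
          · exact Or.inl ⟨ea.1 (by rw [h1]; ring), eb.2 (by rw [h2]; ring)⟩)
    have hsub1 : Icc a1 b1 ⊆ Icc a b := Icc_subset_Icc ha1 hb1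
    have hx1 : ContinuousOn (fun p => φ (T1 p) (-φ T0 (x p))) (Icc a1 b1) :=
      flow_contOn hφ hT1 (hx'.mono hsub1)
    obtain ⟨a2, b2, T2, y, ha2, hab2, hb2, hT2, hy, hcross, hcl2⟩ := hF' φ hφ a1 b1
      (fun p => φ (T1 p) (-φ T0 (x p))) ψ1 hab1 hx1 hψ1 hends1 (fun p hp => by
        obtain ⟨h1, h2, h3, h4⟩ := hcl1 p hp
        refine ⟨h3, h2, ?_⟩
        rw [hcons φ hφ _ (T1 p) h1.1 (fun t ht => (far_of_hub (h4 t ht).1 (h4 t ht).2).1),
          hEx p (hsub1 hp)]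
        exact (hcl p (hsub1 hp)).2.2.trans (min_le_left _ _))
    have hsub2 : Icc a2 b2 ⊆ Icc a1 b1 := Icc_subset_Icc ha2 hb2
    refine ⟨a2, b2, fun p => T0 + (T1 p + T2 p), y, ha1.trans ha2, hab2, hb2.trans hb1,
      continuousOn_const.add ((hT1.mono hsub2).add hT2), hy, hcross, ?_⟩
    intro p hp
    obtain ⟨h1, h2, h3, h4⟩ := hcl1 p (hsub2 hp)
    obtain ⟨h5, h6, h7⟩ := hcl2 p hp
    have hm1 : min (min m0 m') (1/2) ≤ m0 := (min_le_left _ _).trans (min_le_left _ _)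
    have hm2 : min (min m0 m') (1/2) ≤ m' := (min_le_left _ _).trans (min_le_right _ _)
    have hm3 : min (min m0 m') (1/2) ≤ 1/2 := min_le_right _ _
    refine ⟨⟨by linarith [h1.1, h5.1], by linarith [h1.2, h5.2]⟩, ?_, h7⟩
    refine ⟨T0, ⟨hT0.le, by linarith [h1.1, h5.1]⟩, ?_, ?_⟩
    · obtain ⟨h8, h9, -⟩ := hcl p (hsub1 (hsub2 hp))
      exact Seg_mono (hE φ hφ (x p) (ψ p) h8 h9).1 hm1
    · rw [show T0 + (T1 p + T2 p) - T0 = T1 p + T2 p by ring]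
      refine Tr_prefix hφ h1.1 w ?_ (Tr_mono hm2 w _ _ h6)
      intro t ht
      have h10 := far_of_hub (h4 t ht).1 (h4 t ht).2
      exact ⟨h10.1, hm3.trans h10.2⟩

end Run7.h874
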