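import Pool.Agent.Run7.h874.T690.PF

/-!
# Piece J, part 1 (helper690): traces are closed under limits
-/

set_option autoImplicit false
set_option linter.all false

namespace Run7.h874

open Complex Set

theorem gcneg (ϱ : ℝ) (z : ℂ) : gc ϱ (-z) = -gc ϱ z := by
  unfold gc
  rw [norm_neg, smul_neg]

theorem f0_neg (ϱ : ℝ) (x : P2) : f0 ϱ (-x) = -f0 ϱ x := by
  unfold f0
  apply Prod.ext
  · rfl
  · show -2 * I * (-x.2) + -x.1 - (1/2 : ℂ) * (gc ϱ (-x.1 + 1/2) + gc ϱ (-x.1 - 1/2)) =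
      -(-2 * I * x.2 + x.1 - (1/2 : ℂ) * (gc ϱ (x.1 + 1/2) + gc ϱ (x.1 - 1/2)))
    rw [show -x.1 + 1/2 = -(x.1 - 1/2) by ring, show -x.1 - 1/2 = -(x.1 + 1/2) by ring, gcneg, gcneg]
    ring

theorem flow_neg (hA2 : StmtA2) {K : NNReal} (hK : LipschitzWith K (f0 rho0)) {φ : ℝ → P2 → P2}
    (hφ : IsFlow (f0 rho0) φ) (x : P2) {t : ℝ} (ht : 0 ≤ t) : φ t (-x) = -φ t x := by
  have h1 : ∀ s, HasDerivAt (fun s => -φ s x) (-f0 rho0 (φ s x)) s := fun s => (hφ.deriv s x).neg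
  have h2 := hA2 P2 (f0 rho0) K φ hK hφ (fun s => -φ s x) (fun s => -f0 rho0 (φ s x)) t 0 0 ht
    (le_refl _) (le_refl _) (fun s _ => (h1 s).continuousAt.continuousWithinAt)
    (fun s _ => (h1 s).hasDerivWithinAt) (fun s _ => by
      show ‖-f0 rho0 (φ s x) - f0 rho0 (-φ s x)‖ ≤ 0
      rw [f0_neg, sub_self, norm_zero]) (-x) (by
      show ‖-φ 0 x - -x‖ ≤ 0
      rw [hφ.zero, sub_self, norm_zero]) t ⟨ht, le_refl _⟩
  have h3 : ‖-φ t x - φ t (-x)‖ ≤ 0 := by simpa using h2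
  have h4 := norm_le_zero_iff.1 h3
  exact (sub_eq_zero.1 h4).symm

theorem far_neg {y : P2} (h : far y) : far (-y) := by
  obtain ⟨h1, h2, h3, h4⟩ := h
  refine ⟨?_, ?_, ?_, ?_⟩
  · show 4 * rho0 ≤ ‖-y.1 + 1/2‖
    rw [show -y.1 + 1/2 = -(y.1 - 1/2) by ring, norm_neg]
    exact h2
  · show 4 * rho0 ≤ ‖-y.1 - 1/2‖
    rw [show -y.1 - 1/2 = -(y.1 + 1/2) by ring, norm_neg]
    exact h1
  · show ‖-y.1‖ ≤ 10
    rw [norm_neg]
    exact h3
  · show ‖-y.2‖ ≤ 1000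
    rw [norm_neg]
    exact h4

theorem isClosed_far : IsClosed {y : P2 | far y} := by
  have h1 : {y : P2 | far y} = {y | 4 * rho0 ≤ ‖y.1 + 1/2‖} ∩ ({y | 4 * rho0 ≤ ‖y.1 - 1/2‖} ∩
      ({y | ‖y.1‖ ≤ 10} ∩ {y | ‖y.2‖ ≤ 1000})) := by
    ext y
    exact Iff.rfl
  rw [h1]
  refine IsClosed.inter (isClosed_le continuous_const (by fun_prop)) (IsClosed.inter
    (isClosed_le continuous_const (by fun_prop)) (IsClosed.inter
    (isClosed_le (by fun_prop) continuous_const) (isClosed_le (by fun_prop) continuous_const)))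

/-- the final state of a trace -/
theorem Tr_end (hA2 : StmtA2) {K : NNReal} (hK : LipschitzWith K (f0 rho0)) {φ : ℝ → P2 → P2}
    (hφ : IsFlow (f0 rho0) φ) {m : ℝ} {y : P2} : ∀ (w : List (Fin 3)) (x : P2) (T : ℝ),
    Tr φ w m x T y → y = ((-1 : ℝ) ^ w.length) • φ T x ∧ 0 ≤ T ∧ ∀ t ∈ Icc 0 T, far (φ t x)
  | [], x, T, h => by
    obtain ⟨⟨h1, h2⟩, h3⟩ := h
    refine ⟨by rw [h3]; simp, h1, fun t ht => (h2 t ht).1⟩
  | c :: w, x, T, h => by
    obtain ⟨T1, hT1, ⟨t1, t2, h1, h2, h3, h4, -⟩, h5⟩ := h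
    obtain ⟨h6, h7, h8⟩ := Tr_end hA2 hK hφ w _ _ h5
    have key : ∀ s, 0 ≤ s → φ s (-φ T1 x) = -φ (T1 + s) x := by
      intro s hs
      rw [flow_neg hA2 hK hφ _ hs, hφ.add]
    refine ⟨?_, hT1.1.trans hT1.2, fun t ht => ?_⟩
    · rw [h6, key _ h7, List.length_cons, pow_succ, show T1 + (T - T1) = T by ring, smul_neg,
        mul_neg_one, neg_smul]
    · rcases le_total t T1 with htT | htT
      · exact h4 t ⟨ht.1, htT⟩
      · have h9 := h8 (t - T1) ⟨by linarith, by linarith [ht.2]⟩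
        rw [key _ (by linarith), show T1 + (t - T1) = t by ring] at h9
        have h10 := far_neg h9
        rwa [neg_neg] at h10

/-- closed conditions along a piece of an orbit -/
theorem closed_along {Y : Type} [TopologicalSpace Y] {φ : ℝ → P2 → P2} {F : P2 → P2}
    (hφ : IsFlow F φ) {C : Set P2} (hC : IsClosed C) {x : Y → P2} {a b : Y → ℝ} (hx : Continuous x)
    (ha : Continuous a) (hb : Continuous b) :
    IsClosed {q : Y | ∀ s ∈ Icc (0:ℝ) 1, φ (a q + s * (b q - a q)) (x q) ∈ C} := by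
  have h1 : {q : Y | ∀ s ∈ Icc (0:ℝ) 1, φ (a q + s * (b q - a q)) (x q) ∈ C} =
      ⋂ s ∈ Icc (0:ℝ) 1, {q : Y | φ (a q + s * (b q - a q)) (x q) ∈ C} := by
    ext q
    simp only [mem_setOf_eq, mem_iInter]
  rw [h1]
  refine isClosed_biInter fun s _ => ?_
  refine hC.preimage ?_
  exact hφ.cont.comp ((ha.add (continuous_const.mul (hb.sub ha))).prodMk hx)

theorem along_iff {C : Set P2} {f : ℝ → P2} {a b : ℝ} (hab : a ≤ b) :
    (∀ s ∈ Icc (0:ℝ) 1, f (a + s * (b - a)) ∈ C) ↔ ∀ t ∈ Icc a b, f t ∈ C := by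
  constructor
  · intro h t ht
    rcases eq_or_lt_of_le hab with heq | hlt
    · have h1 : t = a := le_antisymm (by rw [heq]; exact ht.2) ht.1
      have h2 := h 0 ⟨le_refl _, zero_le_one⟩
      rw [zero_mul, add_zero] at h2
      rw [h1]
      exact h2
    · have h1 := h ((t - a) / (b - a)) ⟨div_nonneg (by linarith [ht.1]) (by linarith),
        (div_le_one (by linarith)).2 (by linarith [ht.2])⟩
      rw [div_mul_cancel₀ _ (by linarith), show a + (t - a) = t by ring] at h1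
      exact h1
  · intro h s hs
    apply h
    constructor
    · nlinarith [hs.1]
    · nlinarith [hs.2]

theorem isClosed_reg (c : Fin 3) (m : ℝ) : IsClosed {x : ℝ | reg c m x} := by
  have h1 : {x : ℝ | reg c m x} = ({x | c = 0} ∩ {x | x ≤ -1/2 - m}) ∪ (({x | c = 1} ∩ {x | 1/2 + m ≤ x}) ∪
      ({x | c = 2} ∩ ({x | -1/2 + m ≤ x} ∩ {x | x ≤ 1/2 - m}))) := by
    ext x
    exact Iff.rfl
  rw [h1]
  refine IsClosed.union (IsClosed.inter isClosed_const (isClosed_le continuous_id continuous_const))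
    (IsClosed.union (IsClosed.inter isClosed_const (isClosed_le continuous_const continuous_id))
    (IsClosed.inter isClosed_const (IsClosed.inter (isClosed_le continuous_const continuous_id)
      (isClosed_le continuous_id continuous_const))))

/-- the set of traces is closed -/
theorem Tr_closed {φ : ℝ → P2 → P2} {F : P2 → P2} (hφ : IsFlow F φ) (m : ℝ) : ∀ w : List (Fin 3),
    IsClosed {q : P2 × ℝ | ∃ y, Tr φ w m q.1 q.2 y}
  | [] => by
    have h1 : {q : P2 × ℝ | ∃ y, Tr φ [] m q.1 q.2 y} = {q | 0 ≤ q.2} ∩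
        {q | ∀ s ∈ Icc (0:ℝ) 1, φ (0 + s * (q.2 - 0)) q.1 ∈ {y : P2 | far y ∧ m ≤ y.1.im}} := by
      ext q
      constructor
      · rintro ⟨y, ⟨h2, h3⟩, h4⟩
        exact ⟨h2, (along_iff (C := {y : P2 | far y ∧ m ≤ y.1.im}) (f := fun t => φ t q.1) h2).2 h3⟩
      · rintro ⟨h2, h3⟩
        exact ⟨_, ⟨h2, (along_iff (C := {y : P2 | far y ∧ m ≤ y.1.im}) (f := fun t => φ t q.1) h2).1 h3⟩, rfl⟩
    rw [h1]
    have hC1 : IsClosed {y : P2 | m ≤ y.1.im} :=
      isClosed_le continuous_const (continuous_im.comp continuous_fst)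
    have hC : IsClosed {y : P2 | far y ∧ m ≤ y.1.im} := IsClosed.inter isClosed_far hC1
    exact IsClosed.inter (isClosed_le continuous_const continuous_snd)
      (closed_along hφ hC continuous_fst continuous_const continuous_snd)
  | c :: w => by
    have ih := Tr_closed hφ m w
    -- parametrisation of the three times
    let Q : Type := (Icc (0:ℝ) 1 × Icc (0:ℝ) 1 × Icc (0:ℝ) 1) × (P2 × ℝ)
    let T1 : Q → ℝ := fun q => (q.1.1 : ℝ) * q.2.2
    let t2 : Q → ℝ := fun q => (q.1.2.1 : ℝ) * T1 q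
    let t1 : Q → ℝ := fun q => (q.1.2.2 : ℝ) * t2 q
    have cT1 : Continuous T1 := by fun_prop
    have ct2 : Continuous t2 := by fun_prop
    have ct1 : Continuous t1 := by fun_prop
    have cx : Continuous (fun q : Q => q.2.1) := by fun_prop
    let A : Set Q := {q | 0 ≤ q.2.2} ∩
      ({q | ∀ s ∈ Icc (0:ℝ) 1, φ (0 + s * (T1 q - 0)) q.2.1 ∈ {y : P2 | far y}} ∩
      ({q | ∀ s ∈ Icc (0:ℝ) 1, φ (0 + s * (t1 q - 0)) q.2.1 ∈ {y : P2 | m ≤ y.1.im}} ∩
      ({q | ∀ s ∈ Icc (0:ℝ) 1, φ (t1 q + s * (t2 q - t1 q)) q.2.1 ∈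
        {y : P2 | y.2.im ≤ -m ∧ reg c m y.1.re}} ∩
      ({q | ∀ s ∈ Icc (0:ℝ) 1, φ (t2 q + s * (T1 q - t2 q)) q.2.1 ∈ {y : P2 | y.1.im ≤ -m}} ∩
      {q | (-(φ (T1 q) q.2.1), q.2.2 - T1 q) ∈ {q : P2 × ℝ | ∃ y, Tr φ w m q.1 q.2 y}}))))
    have hA : IsClosed A := by
      refine IsClosed.inter (isClosed_le continuous_const (by fun_prop)) ?_
      refine IsClosed.inter (closed_along hφ isClosed_far cx continuous_const cT1) ?_
      have hC1 : IsClosed {y : P2 | m ≤ y.1.im} :=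
        isClosed_le continuous_const (continuous_im.comp continuous_fst)
      have hC2 : IsClosed {y : P2 | y.1.im ≤ -m} :=
        isClosed_le (continuous_im.comp continuous_fst) continuous_const
      have hC3 : IsClosed {y : P2 | y.2.im ≤ -m} :=
        isClosed_le (continuous_im.comp continuous_snd) continuous_const
      have hC4 : IsClosed {y : P2 | reg c m y.1.re} :=
        (isClosed_reg c m).preimage (continuous_re.comp continuous_fst)
      have hC5 : IsClosed {y : P2 | y.2.im ≤ -m ∧ reg c m y.1.re} := IsClosed.inter hC3 hC4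
      refine IsClosed.inter (closed_along hφ hC1 cx continuous_const ct1) ?_
      refine IsClosed.inter (closed_along hφ hC5 cx ct1 ct2) ?_
      refine IsClosed.inter (closed_along hφ hC2 cx ct2 cT1) ?_
      refine ih.preimage ?_
      refine Continuous.prodMk (Continuous.neg (hφ.cont.comp (cT1.prodMk cx))) (by fun_prop)
    have hproj : {q : P2 × ℝ | ∃ y, Tr φ (c :: w) m q.1 q.2 y} = Prod.snd '' A := by
      ext q
      constructor
      · rintro ⟨y, T', hT', ⟨s1, s2, h1, h2, h3, h4, h5, h6, h7⟩, h8⟩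
        have hq : 0 ≤ q.2 := hT'.1.trans hT'.2
        have e1 : ∃ a ∈ Icc (0:ℝ) 1, a * q.2 = T' := by
          rcases eq_or_lt_of_le hq with h0 | h0
          · exact ⟨0, ⟨le_refl _, zero_le_one⟩, by
              rw [zero_mul]
              exact le_antisymm hT'.1 (by rw [h0]; exact hT'.2)⟩
          · exact ⟨T' / q.2, ⟨div_nonneg hT'.1 hq, (div_le_one h0).2 hT'.2⟩, by field_simp⟩
        have e2 : ∃ a ∈ Icc (0:ℝ) 1, a * T' = s2 := by
          rcases eq_or_lt_of_le hT'.1 with h0 | h0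
          · exact ⟨0, ⟨le_refl _, zero_le_one⟩, by linarith⟩
          · exact ⟨s2 / T', ⟨div_nonneg (h1.trans h2) hT'.1, (div_le_one h0).2 h3⟩, by field_simp⟩
        have e3 : ∃ a ∈ Icc (0:ℝ) 1, a * s2 = s1 := by
          rcases eq_or_lt_of_le (h1.trans h2) with h0 | h0
          · exact ⟨0, ⟨le_refl _, zero_le_one⟩, by linarith⟩
          · exact ⟨s1 / s2, ⟨div_nonneg h1 h0.le, (div_le_one h0).2 h2⟩, by field_simp⟩
        obtain ⟨a, ha, ha2⟩ := e1
        obtain ⟨b, hb, hb2⟩ := e2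
        obtain ⟨d, hd, hd2⟩ := e3
        refine ⟨((⟨a, ha⟩, ⟨b, hb⟩, ⟨d, hd⟩), q), ?_, rfl⟩
        have k1 : T1 ((⟨a, ha⟩, ⟨b, hb⟩, ⟨d, hd⟩), q) = T' := ha2
        have k2 : t2 ((⟨a, ha⟩, ⟨b, hb⟩, ⟨d, hd⟩), q) = s2 := by
          show b * T1 _ = s2
          rw [k1, hb2]
        have k3 : t1 ((⟨a, ha⟩, ⟨b, hb⟩, ⟨d, hd⟩), q) = s1 := by
          show d * t2 _ = s1
          rw [k2, hd2]
        refine ⟨hq, ?_, ?_, ?_, ?_, ?_⟩
        · show ∀ s ∈ Icc (0:ℝ) 1, φ (0 + s * (T1 _ - 0)) q.1 ∈ {y : P2 | far y}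
          rw [k1]
          exact (along_iff (C := {y : P2 | far y}) (f := fun t => φ t q.1) hT'.1).2 h4
        · show ∀ s ∈ Icc (0:ℝ) 1, φ (0 + s * (t1 _ - 0)) q.1 ∈ {y : P2 | m ≤ y.1.im}
          rw [k3]
          exact (along_iff (C := {y : P2 | m ≤ y.1.im}) (f := fun t => φ t q.1) h1).2 h5
        · show ∀ s ∈ Icc (0:ℝ) 1, φ (t1 _ + s * (t2 _ - t1 _)) q.1 ∈
            {y : P2 | y.2.im ≤ -m ∧ reg c m y.1.re}
          rw [k3, k2]
          exact (along_iff (C := {y : P2 | y.2.im ≤ -m ∧ reg c m y.1.re}) (f := fun t => φ t q.1) h2).2 h6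
        · show ∀ s ∈ Icc (0:ℝ) 1, φ (t2 _ + s * (T1 _ - t2 _)) q.1 ∈ {y : P2 | y.1.im ≤ -m}
          rw [k1, k2]
          exact (along_iff (C := {y : P2 | y.1.im ≤ -m}) (f := fun t => φ t q.1) h3).2 h7
        · show ∃ y, Tr φ w m (-(φ (T1 _) q.1)) (q.2 - T1 _) y
          rw [k1]
          exact ⟨y, h8⟩
      · rintro ⟨⟨⟨⟨a, ha⟩, ⟨b, hb⟩, ⟨d, hd⟩⟩, q'⟩, ⟨h0, h4, h5, h6, h7, ⟨y, h8⟩⟩, rfl⟩
        have hq : (0:ℝ) ≤ q'.2 := h0
        have g1 : 0 ≤ a * q'.2 := mul_nonneg ha.1 hq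
        have g2 : a * q'.2 ≤ q'.2 := mul_le_of_le_one_left hq ha.2
        have g3 : 0 ≤ b * (a * q'.2) := mul_nonneg hb.1 g1
        have g4 : b * (a * q'.2) ≤ a * q'.2 := mul_le_of_le_one_left g1 hb.2
        have g5 : 0 ≤ d * (b * (a * q'.2)) := mul_nonneg hd.1 g3
        have g6 : d * (b * (a * q'.2)) ≤ b * (a * q'.2) := mul_le_of_le_one_left g3 hd.2
        refine ⟨y, a * q'.2, ⟨g1, g2⟩, ⟨d * (b * (a * q'.2)), b * (a * q'.2), g5, g6, g4,
          ?_, ?_, ?_, ?_⟩, h8⟩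
        · exact (along_iff (C := {y : P2 | far y}) (f := fun t => φ t q'.1) g1).1 h4
        · exact (along_iff (C := {y : P2 | m ≤ y.1.im}) (f := fun t => φ t q'.1) g5).1 h5
        · exact (along_iff (C := {y : P2 | y.2.im ≤ -m ∧ reg c m y.1.re}) (f := fun t => φ t q'.1) g6).1 h6
        · exact (along_iff (C := {y : P2 | y.1.im ≤ -m}) (f := fun t => φ t q'.1) g4).1 h7
    rw [hproj]
    exact isClosedMap_snd_of_compactSpace A hA

end Run7.h874
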