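import Pool.Agent.Run7.h874.T690.PJ1

/-!
# Piece J, part 2 (helper690): from the restricted to the full problem
-/

set_option autoImplicit false
set_option linter.all false

namespace Run7.h874

open Complex Set

/-- the eclipse function -/
noncomputable def gI (X : P4) : ℝ := (X.2.1 * (starRingEnd ℂ) X.1.1).im

/-- turning the frame by `π` and exchanging the primaries -/
def flp (X : P4) : P4 := (X.1, -X.2)

theorem gI_flp (X : P4) : gI (flp X) = -gI X := by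
  unfold gI flp
  show (-X.2.1 * (starRingEnd ℂ) X.1.1).im = -(X.2.1 * (starRingEnd ℂ) X.1.1).im
  rw [neg_mul, neg_im]

theorem flp_flp (X : P4) : flp (flp X) = X := by
  unfold flp
  rw [neg_neg]

theorem fe_flp (ϱ ε : ℝ) (X : P4) : fe ϱ ε (flp X) = flp (fe ϱ ε X) := by
  unfold fe flp
  apply Prod.ext
  · apply Prod.ext
    · rfl
    · show -2 * I * X.1.2 + X.1.1 - gc ϱ X.1.1
        + (ε : ℂ) * (gc ϱ (-X.2.1 - X.1.1/2) - gc ϱ (-X.2.1 + X.1.1/2)) =
        -2 * I * X.1.2 + X.1.1 - gc ϱ X.1.1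
        + (ε : ℂ) * (gc ϱ (X.2.1 - X.1.1/2) - gc ϱ (X.2.1 + X.1.1/2))
      rw [show -X.2.1 - X.1.1/2 = -(X.2.1 + X.1.1/2) by ring,
        show -X.2.1 + X.1.1/2 = -(X.2.1 - X.1.1/2) by ring, gcneg, gcneg]
      ring
  · apply Prod.ext
    · rfl
    · show -2 * I * (-X.2.2) + (-X.2.1)
        - ((1 + (ε : ℂ))/2) * (gc ϱ (-X.2.1 + X.1.1/2) + gc ϱ (-X.2.1 - X.1.1/2)) =
        -(-2 * I * X.2.2 + X.2.1
        - ((1 + (ε : ℂ))/2) * (gc ϱ (X.2.1 + X.1.1/2) + gc ϱ (X.2.1 - X.1.1/2)))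
      rw [show -X.2.1 - X.1.1/2 = -(X.2.1 + X.1.1/2) by ring,
        show -X.2.1 + X.1.1/2 = -(X.2.1 - X.1.1/2) by ring, gcneg, gcneg]
      ring

theorem hasDerivAt_flp {X : ℝ → P4} {D : P4} {t : ℝ} (h : HasDerivAt X D t) :
    HasDerivAt (fun s => flp (X s)) (flp D) t := by
  have h1 : HasDerivAt (fun s => (X s).1) D.1 t := h.fst
  have h2 : HasDerivAt (fun s => (X s).2) D.2 t := h.snd
  exact h1.prodMk h2.neg

/-- exchange of the labels of the primaries -/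
def sw (c : Fin 3) : Fin 3 := if c = 0 then 1 else if c = 1 then 0 else 2

theorem sw_sw (c : Fin 3) : sw (sw c) = c := by
  fin_cases c <;> rfl

/-- the word in the fixed frame and the word in the local frames -/
def tl : List (Fin 3) → List (Fin 3)
  | [] => []
  | c :: w => c :: (tl w).map sw

theorem tl_map (w : List (Fin 3)) : tl (w.map sw) = (tl w).map sw := by
  induction w with
  | nil => rfl
  | cons c w ih => simp [tl, ih]

theorem tl_tl (w : List (Fin 3)) : tl (tl w) = w := by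
  induction w with
  | nil => rfl
  | cons c w ih =>
    show c :: (tl ((tl w).map sw)).map sw = c :: w
    rw [tl_map, ih, List.map_map]
    congr 1
    rw [show sw ∘ sw = id from funext sw_sw, List.map_id]

theorem length_tl (w : List (Fin 3)) : (tl w).length = w.length := by
  induction w with
  | nil => rfl
  | cons c w ih => simp [tl, ih]

theorem mid_flp {c : Fin 3} {X : P4} (h : mid c (flp X)) : mid (sw c) X := by
  have e : ((flp X).2.1 / (flp X).1.1).re = -(X.2.1 / X.1.1).re := by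
    show (-X.2.1 / X.1.1).re = _
    rw [neg_div, neg_re]
  unfold mid at h ⊢
  rw [e] at h
  rcases h with ⟨rfl, h⟩ | ⟨rfl, h⟩ | ⟨rfl, h1, h2⟩
  · exact Or.inr (Or.inl ⟨rfl, by linarith⟩)
  · exact Or.inl ⟨rfl, by linarith⟩
  · exact Or.inr (Or.inr ⟨rfl, by linarith, by linarith⟩)

theorem gc_eq_cut {ϱ : ℝ} (hϱ : 0 ≤ ϱ) {z : ℂ} (hz : ϱ ≤ ‖z‖) : gc ϱ z = gc 0 z := by
  unfold gc
  rw [max_eq_left hz, max_eq_left (norm_nonneg z)]

/-- closeness to the restricted problem -/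
structure Near (δ : ℝ) (X : P4) (x : P2) : Prop where
  r : ‖X.1.1 - 1‖ ≤ δ
  w : ‖X.1.2‖ ≤ δ
  z : ‖X.2.1 - x.1‖ ≤ δ
  v : ‖X.2.2 - x.2‖ ≤ δ

theorem near_of {δ : ℝ} {X : P4} {x : P2} (h : ‖X - ((1, 0), x)‖ ≤ δ) : Near δ X x := by
  have h1 : ‖X - ((1, 0), x)‖ = max (max ‖X.1.1 - 1‖ ‖X.1.2 - 0‖) (max ‖X.2.1 - x.1‖ ‖X.2.2 - x.2‖) := rfl
  rw [h1] at h
  have h2 := (le_max_left _ _).trans h
  have h3 := (le_max_right _ _).trans h
  refine ⟨(le_max_left _ _).trans h2, ?_, (le_max_left _ _).trans h3, (le_max_right _ _).trans h3⟩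
  have h4 := (le_max_right _ _).trans h2
  rwa [sub_zero] at h4

theorem Near.flp {δ : ℝ} {X : P4} {x : P2} (h : Near δ X x) : Near δ (flp X) (-x) := by
  refine ⟨h.r, h.w, ?_, ?_⟩
  · show ‖-X.2.1 - -x.1‖ ≤ δ
    rw [← neg_sub', norm_neg]
    exact h.z
  · show ‖-X.2.2 - -x.2‖ ≤ δ
    rw [← neg_sub', norm_neg]
    exact h.v

section near

variable {δ : ℝ} {X : P4} {x : P2} (h : Near δ X x) (hδ : δ ≤ 1/10^6)
include h hδ

theorem Near.nn : 0 ≤ δ := (norm_nonneg _).trans h.r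

theorem Near.R_ge : 1 - δ ≤ ‖X.1.1‖ := by
  have h1 : ‖(1:ℂ)‖ ≤ ‖X.1.1‖ + ‖X.1.1 - 1‖ := by
    have := norm_sub_le X.1.1 (X.1.1 - 1)
    rwa [sub_sub_cancel] at this
  rw [norm_one] at h1
  linarith [h.r]

theorem Near.R_le : ‖X.1.1‖ ≤ 1 + δ := by
  have h1 : ‖X.1.1‖ ≤ ‖(1:ℂ)‖ + ‖X.1.1 - 1‖ := by
    have := norm_add_le (1:ℂ) (X.1.1 - 1)
    rwa [add_sub_cancel] at this
  rw [norm_one] at h1
  linarith [h.r]

theorem Near.plus (hf : far x) : rho0 ≤ ‖X.2.1 + X.1.1 / 2‖ := by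
  have h1 : ‖x.1 + 1/2‖ ≤ ‖X.2.1 + X.1.1 / 2‖ + (δ + δ / 2) := by
    have e : x.1 + 1/2 = (X.2.1 + X.1.1 / 2) - ((X.2.1 - x.1) + (X.1.1 - 1) / 2) := by ring
    rw [e]
    refine (norm_sub_le _ _).trans ?_
    gcongr
    refine (norm_add_le _ _).trans ?_
    rw [norm_div, Complex.norm_ofNat]
    linarith [h.z, h.r]
  have h2 := hf.1
  unfold rho0 at *
  linarith

theorem Near.minus (hf : far x) : rho0 ≤ ‖X.2.1 - X.1.1 / 2‖ := by
  have h1 : ‖x.1 - 1/2‖ ≤ ‖X.2.1 - X.1.1 / 2‖ + (δ + δ / 2) := by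
    have e : x.1 - 1/2 = (X.2.1 - X.1.1 / 2) - ((X.2.1 - x.1) - (X.1.1 - 1) / 2) := by ring
    rw [e]
    refine (norm_sub_le _ _).trans ?_
    gcongr
    refine (norm_sub_le _ _).trans ?_
    rw [norm_div, Complex.norm_ofNat]
    linarith [h.z, h.r]
  have h2 := hf.2.1
  unfold rho0 at *
  linarith

theorem Near.ne (hf : far x) : X.1.1 ≠ 0 ∧ X.2.1 + X.1.1/2 ≠ 0 ∧ X.2.1 - X.1.1/2 ≠ 0 := by
  have hr : (0:ℝ) < rho0 := by
    unfold rho0
    norm_num
  refine ⟨?_, ?_, ?_⟩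
  · rw [← norm_pos_iff]
    have := h.R_ge hδ
    linarith
  · rw [← norm_pos_iff]
    exact hr.trans_le (h.plus hδ hf)
  · rw [← norm_pos_iff]
    exact hr.trans_le (h.minus hδ hf)

theorem Near.fe_eq (hf : far x) (ε : ℝ) : fe rho0 ε X = fe 0 ε X := by
  have hr : (0:ℝ) ≤ rho0 := by
    unfold rho0
    norm_num
  have h1 : rho0 ≤ ‖X.1.1‖ := by
    have := h.R_ge hδ
    unfold rho0
    linarith
  unfold fe
  rw [gc_eq_cut hr h1, gc_eq_cut hr (h.plus hδ hf), gc_eq_cut hr (h.minus hδ hf)]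

theorem Near.gI_sub (hf : far x) : |gI X - x.1.im| ≤ 12 * δ := by
  have hnn := h.nn hδ
  have e : X.2.1 * (starRingEnd ℂ) X.1.1 - x.1 = (X.2.1 - x.1) * (starRingEnd ℂ) X.1.1 +
      x.1 * (starRingEnd ℂ) (X.1.1 - 1) := by
    rw [map_sub, map_one]
    ring
  have h1 : ‖X.2.1 * (starRingEnd ℂ) X.1.1 - x.1‖ ≤ 12 * δ := by
    rw [e]
    refine (norm_add_le _ _).trans ?_
    rw [norm_mul, norm_mul, norm_conj, norm_conj]
    have h2 := h.R_le hδ
    have h3 : ‖X.2.1 - x.1‖ * ‖X.1.1‖ ≤ δ * (1 + δ) := mul_le_mul h.z h2 (norm_nonneg _) hnn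
    have h4 : ‖x.1‖ * ‖X.1.1 - 1‖ ≤ 10 * δ := mul_le_mul hf.2.2.1 h.r (norm_nonneg _) (by norm_num)
    nlinarith
  have h2 := (abs_im_le_norm _).trans h1
  rw [sub_im] at h2
  exact h2

theorem Near.dgI_sub (hf : far x) :
    |(X.2.2 * (starRingEnd ℂ) X.1.1 + X.2.1 * (starRingEnd ℂ) X.1.2).im - x.2.im| ≤ 1012 * δ := by
  have hnn := h.nn hδ
  have e : X.2.2 * (starRingEnd ℂ) X.1.1 + X.2.1 * (starRingEnd ℂ) X.1.2 - x.2 =
      (X.2.2 - x.2) * (starRingEnd ℂ) X.1.1 + x.2 * (starRingEnd ℂ) (X.1.1 - 1) +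
      X.2.1 * (starRingEnd ℂ) X.1.2 := by
    rw [map_sub, map_one]
    ring
  have hZ : ‖X.2.1‖ ≤ 10 + δ := by
    have := norm_add_le (X.2.1 - x.1) x.1
    rw [sub_add_cancel] at this
    linarith [h.z, hf.2.2.1]
  have h1 : ‖X.2.2 * (starRingEnd ℂ) X.1.1 + X.2.1 * (starRingEnd ℂ) X.1.2 - x.2‖ ≤ 1012 * δ := by
    rw [e]
    refine (norm_add_le _ _).trans ?_
    have h5 := norm_add_le ((X.2.2 - x.2) * (starRingEnd ℂ) X.1.1) (x.2 * (starRingEnd ℂ) (X.1.1 - 1))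
    rw [norm_mul, norm_mul, norm_conj, norm_conj] at h5
    rw [norm_mul, norm_conj]
    have h2 := h.R_le hδ
    have h3 : ‖X.2.2 - x.2‖ * ‖X.1.1‖ ≤ δ * (1 + δ) := mul_le_mul h.v h2 (norm_nonneg _) hnn
    have h4 : ‖x.2‖ * ‖X.1.1 - 1‖ ≤ 1000 * δ := mul_le_mul hf.2.2.2 h.r (norm_nonneg _) (by norm_num)
    have h6 : ‖X.2.1‖ * ‖X.1.2‖ ≤ (10 + δ) * δ := mul_le_mul hZ h.w (norm_nonneg _) (by linarith)
    nlinarith
  have h2 := (abs_im_le_norm _).trans h1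
  rw [sub_im] at h2
  exact h2

theorem Near.shape (hf : far x) : |(X.2.1 / X.1.1).re - x.1.re| ≤ 12 * δ := by
  have hnn := h.nn hδ
  have hR := h.R_ge hδ
  have hR0 := (h.ne hδ hf).1
  have e : X.2.1 / X.1.1 - x.1 = ((X.2.1 - x.1) - x.1 * (X.1.1 - 1)) / X.1.1 := by
    field_simp
    ring
  have h1 : ‖X.2.1 / X.1.1 - x.1‖ ≤ 12 * δ := by
    rw [e, norm_div, div_le_iff₀ (by linarith)]
    refine (norm_sub_le _ _).trans ?_
    rw [norm_mul]
    have h4 : ‖x.1‖ * ‖X.1.1 - 1‖ ≤ 10 * δ := mul_le_mul hf.2.2.1 h.r (norm_nonneg _) (by norm_num)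
    nlinarith [h.z]
  have h2 := (abs_re_le_norm _).trans h1
  rw [sub_re] at h2
  exact h2

theorem Near.mid {c : Fin 3} {m : ℝ} (hf : far x) (hm : 12 * δ < m) (hr : reg c m x.1.re) :
    mid c X := by
  have h1 := h.shape hδ hf
  rw [abs_le] at h1
  rcases hr with ⟨rfl, h2⟩ | ⟨rfl, h2⟩ | ⟨rfl, h2, h3⟩
  · exact Or.inl ⟨rfl, by linarith⟩
  · exact Or.inr (Or.inl ⟨rfl, by linarith⟩)
  · exact Or.inr (Or.inr ⟨rfl, by linarith, by linarith⟩)

end near

theorem hasDerivAt_gI {X : ℝ → P4} {ϱ ε t : ℝ} (h : HasDerivAt X (fe ϱ ε (X t)) t) :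
    HasDerivAt (fun s => gI (X s))
      ((X t).2.2 * (starRingEnd ℂ) (X t).1.1 + (X t).2.1 * (starRingEnd ℂ) (X t).1.2).im t := by
  have h1 : HasDerivAt (fun s => (X s).1.1) (X t).1.2 t := h.fst.fst
  have h2 : HasDerivAt (fun s => (X s).2.1) (X t).2.2 t := h.snd.fst
  have h3 : HasDerivAt (fun s => (starRingEnd ℂ) (X s).1.1) ((starRingEnd ℂ) (X t).1.2) t :=
    (conjCLE : ℂ →L[ℝ] ℂ).hasFDerivAt.comp_hasDerivAt t h1
  have h4 := h2.mul h3
  exact imCLM.hasFDerivAt.comp_hasDerivAt t h4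

theorem transfer {φ : ℝ → P2 → P2} (hφ : IsFlow (f0 rho0) φ)
    (hneg : ∀ x t, 0 ≤ t → φ t (-x) = -φ t x) {m δ ε : ℝ} (hδ : δ ≤ 1/10^6) (hm : 0 < m)
    (hδm : 2000 * δ ≤ m) : ∀ (w : List (Fin 3)) (x : P2) (T : ℝ) (y : P2) (X : ℝ → P4),
    Tr φ w m x T y → (∀ t ∈ Icc 0 T, HasDerivAt X (fe rho0 ε (X t)) t) →
    (∀ t ∈ Icc 0 T, Near δ (X t) (φ t x)) →
    ∃ L : List ℝ, List.Forall₂ (fun t c => gI (X t) = 0 ∧ mid c (X t)) L (tl w) ∧
      L.Pairwise (· < ·) ∧ (∀ t ∈ L, 0 < t ∧ t < T) ∧ (∀ t ∈ Icc 0 T, gI (X t) = 0 → t ∈ L) ∧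
      0 < (-1) ^ w.length * gI (X T)
  | [], x, T, y, X, ⟨⟨h1, h2⟩, h3⟩, hX, hN => by
    have key : ∀ t ∈ Icc 0 T, 0 < gI (X t) := by
      intro t ht
      have h4 := (hN t ht).gI_sub hδ (h2 t ht).1
      rw [abs_le] at h4
      have h5 := (h2 t ht).2
      have h6 := (hN t ht).nn hδ
      linarith [h4.1]
    refine ⟨[], List.Forall₂.nil, List.Pairwise.nil, by simp, ?_, ?_⟩
    · intro t ht h4
      exact absurd h4 (key t ht).ne'
    · rw [List.length_nil, pow_zero, one_mul]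
      exact key T ⟨h1, le_refl _⟩
  | c :: w, x, T, y, X, ⟨T1, hT1, ⟨t1, t2, h1, h2, h3, h4, h5, h6, h7⟩, h8⟩, hX, hN => by
    have hsub : ∀ t ∈ Icc 0 T1, t ∈ Icc 0 T := fun t ht => ⟨ht.1, ht.2.trans hT1.2⟩
    have hnn : 0 ≤ δ := (hN 0 ⟨le_refl _, hT1.1.trans hT1.2⟩).nn hδ
    have hpos : ∀ t ∈ Icc 0 t1, 0 < gI (X t) := by
      intro t ht
      have ht' : t ∈ Icc 0 T1 := ⟨ht.1, ht.2.trans (h2.trans h3)⟩
      have h9 := (hN t (hsub t ht')).gI_sub hδ (h4 t ht')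
      rw [abs_le] at h9
      have h10 := h5 t ht
      linarith [h9.1]
    have hng : ∀ t ∈ Icc t2 T1, gI (X t) < 0 := by
      intro t ht
      have ht' : t ∈ Icc 0 T1 := ⟨(h1.trans h2).trans ht.1, ht.2⟩
      have h9 := (hN t (hsub t ht')).gI_sub hδ (h4 t ht')
      rw [abs_le] at h9
      have h10 := h7 t ht
      linarith [h9.2]
    have hmid : ∀ t ∈ Icc t1 t2, t ∈ Icc 0 T1 := fun t ht => ⟨h1.trans ht.1, ht.2.trans h3⟩
    have hder : ∀ t ∈ Icc t1 t2, HasDerivAt (fun s => gI (X s))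
        ((X t).2.2 * (starRingEnd ℂ) (X t).1.1 + (X t).2.1 * (starRingEnd ℂ) (X t).1.2).im t :=
      fun t ht => hasDerivAt_gI (hX t (hsub t (hmid t ht)))
    have hcont : ContinuousOn (fun s => gI (X s)) (Icc t1 t2) :=
      fun t ht => (hder t ht).continuousAt.continuousWithinAt
    have hanti : StrictAntiOn (fun s => gI (X s)) (Icc t1 t2) := by
      apply strictAntiOn_of_deriv_neg (convex_Icc _ _) hcont
      intro t ht
      rw [interior_Icc] at ht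
      have ht' : t ∈ Icc t1 t2 := ⟨ht.1.le, ht.2.le⟩
      rw [(hder t ht').deriv]
      have h9 := (hN t (hsub t (hmid t ht'))).dgI_sub hδ (h4 t (hmid t ht'))
      rw [abs_le] at h9
      have h10 := (h6 t ht').1
      linarith [h9.2]
    -- the eclipse
    have hg1 : 0 < gI (X t1) := hpos t1 ⟨h1, le_refl _⟩
    have hg2 : gI (X t2) < 0 := hng t2 ⟨le_refl _, h3⟩
    obtain ⟨τ0, hτ0, hτ1⟩ := intermediate_value_Icc' h2 hcont (show (0:ℝ) ∈ Icc (gI (X t2)) (gI (X t1)) from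
      ⟨hg2.le, hg1.le⟩)
    have hτ1' : gI (X τ0) = 0 := hτ1
    have hlt1 : t1 < τ0 := by
      rcases eq_or_lt_of_le hτ0.1 with h9 | h9
      · rw [← h9] at hτ1'
        linarith
      · exact h9
    have hlt2 : τ0 < t2 := by
      rcases eq_or_lt_of_le hτ0.2 with h9 | h9
      · rw [h9] at hτ1'
        linarith
      · exact h9
    -- the rest
    have key : ∀ s, 0 ≤ s → φ s (-φ T1 x) = -φ (T1 + s) x := by
      intro s hs
      rw [hneg _ _ hs, hφ.add]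
    obtain ⟨L, hL1, hL2, hL3, hL4, hL5⟩ := transfer hφ hneg hδ hm hδm w (-(φ T1 x)) (T - T1) y
      (fun t => flp (X (T1 + t))) h8 (fun t ht => by
        have h9 : HasDerivAt X (fe rho0 ε (X (T1 + t))) (T1 + t) :=
          hX (T1 + t) ⟨by linarith [ht.1, hT1.1], by linarith [ht.2]⟩
        have h10 := hasDerivAt_flp (HasDerivAt.comp_const_add T1 t h9)
        show HasDerivAt (fun t => flp (X (T1 + t))) (fe rho0 ε (flp (X (T1 + t)))) t
        rw [fe_flp]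
        exact h10) (fun t ht => by
        have h9 := (hN (T1 + t) ⟨by linarith [ht.1, hT1.1], by linarith [ht.2]⟩).flp
        rw [key t ht.1]
        exact h9)
    refine ⟨τ0 :: L.map (fun t => T1 + t), ?_, ?_, ?_, ?_, ?_⟩
    · show List.Forall₂ _ (τ0 :: L.map (fun t => T1 + t)) (c :: (tl w).map sw)
      refine List.Forall₂.cons ⟨hτ1', ?_⟩ ?_
      · exact (hN τ0 (hsub _ (hmid _ hτ0))).mid hδ (h4 τ0 (hmid _ hτ0)) (by linarith)
          (h6 τ0 hτ0).2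
      · rw [List.forall₂_map_left_iff, List.forall₂_map_right_iff]
        refine hL1.imp ?_
        rintro t d ⟨h9, h10⟩
        refine ⟨?_, mid_flp h10⟩
        rw [gI_flp, neg_eq_zero] at h9
        exact h9
    · rw [List.pairwise_cons]
      constructor
      · intro a ha
        obtain ⟨t, ht, rfl⟩ := List.mem_map.1 ha
        linarith [(hL3 t ht).1]
      · rw [List.pairwise_map]
        exact hL2.imp fun h => by linarith
    · intro t ht
      rcases List.mem_cons.1 ht with rfl | ht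
      · exact ⟨by linarith, by linarith [hT1.2]⟩
      · obtain ⟨s, hs, rfl⟩ := List.mem_map.1 ht
        have := hL3 s hs
        exact ⟨by linarith [hT1.1], by linarith⟩
    · intro t ht hgt
      rcases le_total t T1 with htT | htT
      · rcases le_total t t1 with h9 | h9
        · exact absurd hgt (hpos t ⟨ht.1, h9⟩).ne'
        · rcases le_total t t2 with h10 | h10
          · have h11 : t = τ0 := hanti.injOn ⟨h9, h10⟩ hτ0 (by
              show gI (X t) = gI (X τ0)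
              rw [hgt, hτ1'])
            rw [h11]
            exact List.mem_cons_self
          · exact absurd hgt (hng t ⟨h10, htT⟩).ne
      · apply List.mem_cons_of_mem
        rw [List.mem_map]
        refine ⟨t - T1, hL4 _ ⟨by linarith, by linarith [ht.2]⟩ ?_, by ring⟩
        show gI (flp (X (T1 + (t - T1)))) = 0
        rw [show T1 + (t - T1) = t by ring, gI_flp, hgt, neg_zero]
    · have h9 : 0 < (-1) ^ w.length * gI (flp (X (T1 + (T - T1)))) := hL5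
      rw [show T1 + (T - T1) = T by ring, gI_flp] at h9
      rw [List.length_cons, pow_succ]
      linarith

end Run7.h874
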