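import Pool.Agent.Run7.h874.T690.PJ2

/-!
# Piece J, part 3 (helper690): estimates and the limit
-/

set_option autoImplicit false
set_option linter.all false

namespace Run7.h874

open Complex Set

theorem norm4 (X Y : P4) : ‖X - Y‖ = max (max ‖X.1.1 - Y.1.1‖ ‖X.1.2 - Y.1.2‖)
    (max ‖X.2.1 - Y.2.1‖ ‖X.2.2 - Y.2.2‖) := rfl

/-- near the hub -/
theorem hubnear {X : P4} (h : ‖X - hub4‖ ≤ 1/50) : 0 < gI X ∧ rho0 ≤ ‖X.1.1‖ ∧
    rho0 ≤ ‖X.2.1 + X.1.1/2‖ ∧ rho0 ≤ ‖X.2.1 - X.1.1/2‖ := by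
  rw [norm4] at h
  have h1 : ‖X.1.1 - 1‖ ≤ 1/50 := (le_max_left _ _).trans ((le_max_left _ _).trans h)
  have h2 : ‖X.2.1 - hubZ‖ ≤ 1/50 := (le_max_left _ _).trans ((le_max_right _ _).trans h)
  have hs : (1.73 : ℝ) < Real.sqrt 3 := by
    rw [Real.lt_sqrt (by norm_num)]
    norm_num
  have hs2 : Real.sqrt 3 < 1.74 := by
    rw [Real.sqrt_lt' (by norm_num)]
    norm_num
  have hR : ‖X.1.1‖ ≤ 51/50 := by
    have := norm_add_le (X.1.1 - 1) 1
    rw [sub_add_cancel, norm_one] at this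
    linarith
  have hR2 : 49/50 ≤ ‖X.1.1‖ := by
    have := norm_sub_le X.1.1 (X.1.1 - 1)
    rw [sub_sub_cancel, norm_one] at this
    linarith
  have hh : ‖hubZ‖ ≤ 87/100 := by
    have e3 : ‖hubZ‖ ≤ |hubZ.re| + |hubZ.im| := norm_le_abs_re_add_abs_im _
    rw [hubZ_re, hubZ_im, abs_zero, abs_of_pos (by positivity)] at e3
    linarith
  have e : X.2.1 * (starRingEnd ℂ) X.1.1 - hubZ = (X.2.1 - hubZ) * (starRingEnd ℂ) X.1.1 +
      hubZ * (starRingEnd ℂ) (X.1.1 - 1) := by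
    rw [map_sub, map_one]
    ring
  have h3 : ‖X.2.1 * (starRingEnd ℂ) X.1.1 - hubZ‖ ≤ 1/20 := by
    rw [e]
    refine (norm_add_le _ _).trans ?_
    rw [norm_mul, norm_mul, norm_conj, norm_conj]
    have h4 : ‖X.2.1 - hubZ‖ * ‖X.1.1‖ ≤ 1/50 * (51/50) := mul_le_mul h2 hR (norm_nonneg _) (by norm_num)
    have h5 : ‖hubZ‖ * ‖X.1.1 - 1‖ ≤ 87/100 * (1/50) := mul_le_mul hh h1 (norm_nonneg _) (by norm_num)
    linarith
  have h4 := (abs_im_le_norm _).trans h3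
  rw [sub_im, hubZ_im, abs_le] at h4
  have h5 := (abs_im_le_norm _).trans h2
  rw [sub_im, hubZ_im, abs_le] at h5
  have h6 := (abs_im_le_norm _).trans h1
  rw [sub_im, one_im, sub_zero, abs_le] at h6
  have e7 : (X.1.1 / 2).im = X.1.1.im / 2 := by
    rw [show X.1.1 / 2 = X.1.1 / ((2:ℝ):ℂ) by norm_num, div_ofReal_im]
  refine ⟨?_, ?_, ?_, ?_⟩
  · show 0 < (X.2.1 * (starRingEnd ℂ) X.1.1).im
    linarith [h4.1]
  · unfold rho0
    linarith
  · have h8 : (X.2.1 + X.1.1/2).im ≤ ‖X.2.1 + X.1.1/2‖ := (le_abs_self _).trans (abs_im_le_norm _)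
    rw [add_im, e7] at h8
    unfold rho0
    linarith [h5.1, h6.1]
  · have h8 : (X.2.1 - X.1.1/2).im ≤ ‖X.2.1 - X.1.1/2‖ := (le_abs_self _).trans (abs_im_le_norm _)
    rw [sub_im, e7] at h8
    unfold rho0
    linarith [h5.1, h6.2]

theorem fe_eq_of {X : P4} (h1 : rho0 ≤ ‖X.1.1‖) (h2 : rho0 ≤ ‖X.2.1 + X.1.1/2‖)
    (h3 : rho0 ≤ ‖X.2.1 - X.1.1/2‖) (ε : ℝ) : fe rho0 ε X = fe 0 ε X := by
  have hr : (0:ℝ) ≤ rho0 := by
    unfold rho0
    norm_num
  unfold fe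
  rw [gc_eq_cut hr h1, gc_eq_cut hr h2, gc_eq_cut hr h3]

/-- the sign change of the frame -/
noncomputable def fs (s : ℝ) (X : P4) : P4 := (X.1, s • X.2)

theorem fs_one (X : P4) : fs 1 X = X := by
  unfold fs
  rw [one_smul]

theorem fs_neg_one (X : P4) : fs (-1) X = flp X := by
  unfold fs flp
  rw [neg_one_smul]

theorem fs_fs {s : ℝ} (hs : s = 1 ∨ s = -1) (X : P4) : fs s (fs s X) = X := by
  rcases hs with rfl | rfl
  · rw [fs_one, fs_one]
  · rw [fs_neg_one, fs_neg_one, flp_flp]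

theorem fe_fs {s : ℝ} (hs : s = 1 ∨ s = -1) (ϱ ε : ℝ) (X : P4) : fe ϱ ε (fs s X) = fs s (fe ϱ ε X) := by
  rcases hs with rfl | rfl
  · rw [fs_one, fs_one]
  · rw [fs_neg_one, fs_neg_one, fe_flp]

theorem gI_fs {s : ℝ} (hs : s = 1 ∨ s = -1) (X : P4) : gI (fs s X) = s * gI X := by
  rcases hs with rfl | rfl
  · rw [fs_one, one_mul]
  · rw [fs_neg_one, gI_flp]
    ring

theorem continuous_fs (s : ℝ) : Continuous (fs s) :=
  continuous_fst.prodMk (continuous_snd.const_smul s)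

theorem near_fs {s δ : ℝ} (hs : s = 1 ∨ s = -1) {X : P4} {x : P2} (h : Near δ X x) :
    Near δ (fs s X) (s • x) := by
  rcases hs with rfl | rfl
  · rw [fs_one, one_smul]
    exact h
  · rw [fs_neg_one, neg_one_smul]
    exact h.flp

theorem isClosed_FinE : IsClosed {y : P4 | FinE y} := by
  have c1 : Continuous fun y : P4 => (y.2.1 + 1/2).re := by fun_prop
  have c2 : Continuous fun y : P4 => y.2.1.im := by fun_prop
  have c3 : Continuous fun y : P4 => ‖y.2.2‖ := by fun_prop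
  have c4 : Continuous fun y : P4 => y.2.2.re := by fun_prop
  have c5 : Continuous fun y : P4 => y.2.2.im := by fun_prop
  have c6 : Continuous fun y : P4 => ‖y.1.1 - 1‖ := by fun_prop
  have c7 : Continuous fun y : P4 => ‖y.1.2‖ := by fun_prop
  have h1 : {y : P4 | FinE y} =
      ({y | 8/10^4 - 1/10^6 ≤ (y.2.1 + 1/2).re} ∩ ({y | (y.2.1 + 1/2).re ≤ 1/10^3 + 1/10^6} ∩
      ({y | 14/10^6 - 1/10^6 ≤ y.2.1.im} ∩ ({y | y.2.1.im ≤ 20/10^6 + 1/10^6} ∩
      ({y | ‖y.2.2‖ ≤ 36 + 1/10^6} ∩ ({y | y.2.2.re ≤ -30 + 1/10^6} ∩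
      ({y | -7/10 - 1/10^6 ≤ y.2.2.im} ∩ {y | y.2.2.im ≤ -55/100 + 1/10^6}))))))) ∩
      ({y | ‖y.1.1 - 1‖ ≤ 1/10^16} ∩ {y | ‖y.1.2‖ ≤ 1/10^16}) := by
    ext y
    exact Iff.rfl
  rw [h1]
  exact ((isClosed_le continuous_const c1).inter ((isClosed_le c1 continuous_const).inter
    ((isClosed_le continuous_const c2).inter ((isClosed_le c2 continuous_const).inter
    ((isClosed_le c3 continuous_const).inter ((isClosed_le c4 continuous_const).inter
    ((isClosed_le continuous_const c5).inter (isClosed_le c5 continuous_const)))))))).inter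
    ((isClosed_le c6 continuous_const).inter (isClosed_le c7 continuous_const))

theorem finE_of {δ : ℝ} {X : P4} {x : P2} (h : Near δ X x) (hδ : δ ≤ 1/10^16) (hx : FinR 0 x) :
    FinE X := by
  obtain ⟨h1, h2, h3, h4, h5, h6, h7, h8⟩ := hx
  have hz := (abs_re_le_norm _).trans h.z
  have hz2 := (abs_im_le_norm _).trans h.z
  have hv := (abs_re_le_norm _).trans h.v
  have hv2 := (abs_im_le_norm _).trans h.v
  rw [sub_re, abs_le] at hz hv
  rw [sub_im, abs_le] at hz2 hv2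
  have hv3 : ‖X.2.2‖ ≤ ‖x.2‖ + δ := by
    have := norm_add_le (X.2.2 - x.2) x.2
    rw [sub_add_cancel] at this
    linarith [h.v]
  rw [add_re] at h1 h2
  refine ⟨⟨?_, ?_, ?_, ?_, ?_, ?_, ?_, ?_⟩, h.r.trans hδ, h.w.trans hδ⟩
  · rw [add_re]
    norm_num at *
    linarith
  · rw [add_re]
    norm_num at *
    linarith
  · norm_num at *
    linarith
  · norm_num at *
    linarith
  · norm_num at *
    linarith
  · norm_num at *
    linarith
  · norm_num at *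
    linarith
  · norm_num at *
    linarith

theorem ellE_sub {δ : ℝ} {X : P4} {x : P2} (h : Near δ X x) (hδ : δ ≤ 1/10^16) (hx : FinR 0 x) :
    |ellE X - ell x| ≤ ell0 / 2 := by
  have hnn : 0 ≤ δ := (norm_nonneg _).trans h.r
  obtain ⟨h1, h2, h3, h4, h5, h6, h7, h8⟩ := hx
  have ha : ‖X.2.1 + X.1.1/2 - (x.1 + 1/2)‖ ≤ 3/2 * δ := by
    have e : X.2.1 + X.1.1/2 - (x.1 + 1/2) = (X.2.1 - x.1) + (X.1.1 - 1) / 2 := by ring
    rw [e]
    refine (norm_add_le _ _).trans ?_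
    rw [norm_div, Complex.norm_ofNat]
    linarith [h.z, h.r]
  have hv : ‖X.2.2 + X.1.2/2 - x.2‖ ≤ 3/2 * δ := by
    have e : X.2.2 + X.1.2/2 - x.2 = (X.2.2 - x.2) + X.1.2 / 2 := by ring
    rw [e]
    refine (norm_add_le _ _).trans ?_
    rw [norm_div, Complex.norm_ofNat]
    linarith [h.v, h.w]
  have ha1 : ‖x.1 + 1/2‖ ≤ 1 := by
    have e3 : ‖x.1 + 1/2‖ ≤ |(x.1 + 1/2).re| + |(x.1 + 1/2).im| := norm_le_abs_re_add_abs_im _
    have e4 : (x.1 + 1/2).im = x.1.im := by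
      rw [add_im]
      norm_num
    rw [e4] at e3
    have e5 : |(x.1 + 1/2).re| ≤ 1/10 := by
      rw [abs_le]
      constructor <;> norm_num at * <;> linarith
    have e6 : |x.1.im| ≤ 1/10 := by
      rw [abs_le]
      constructor <;> norm_num at * <;> linarith
    linarith
  have hv1 : ‖x.2‖ ≤ 36 := by linarith
  set a := x.1 + 1/2 with haa
  set A := X.2.1 + X.1.1/2 with hAA
  set v := x.2 with hvv
  set V := X.2.2 + X.1.2/2 with hVV
  have e : (starRingEnd ℂ) A * (V + I * A) - (starRingEnd ℂ) a * (v + I * a) =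
      (starRingEnd ℂ) (A - a) * ((V - v) + I * (A - a) + (v + I * a)) +
      (starRingEnd ℂ) a * ((V - v) + I * (A - a)) := by
    rw [map_sub]
    ring
  have hd : ‖(V - v) + I * (A - a)‖ ≤ 3 * δ := by
    refine (norm_add_le _ _).trans ?_
    rw [norm_mul, norm_I, one_mul]
    linarith
  have hd2 : ‖v + I * a‖ ≤ 37 := by
    refine (norm_add_le _ _).trans ?_
    rw [norm_mul, norm_I, one_mul]
    linarith
  have hd3 : ‖(V - v) + I * (A - a) + (v + I * a)‖ ≤ 38 := by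
    refine (norm_add_le _ _).trans ?_
    norm_num at hδ
    linarith
  have h9 : ‖(starRingEnd ℂ) A * (V + I * A) - (starRingEnd ℂ) a * (v + I * a)‖ ≤ 60 * δ := by
    rw [e]
    refine (norm_add_le _ _).trans ?_
    rw [norm_mul, norm_mul, norm_conj, norm_conj]
    have g1 : ‖A - a‖ * ‖(V - v) + I * (A - a) + (v + I * a)‖ ≤ 3/2 * δ * 38 :=
      mul_le_mul ha hd3 (norm_nonneg _) (by positivity)
    have g2 : ‖a‖ * ‖(V - v) + I * (A - a)‖ ≤ 1 * (3 * δ) :=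
      mul_le_mul ha1 hd (norm_nonneg _) (by norm_num)
    linarith
  have h10 := (abs_im_le_norm _).trans h9
  rw [sub_im] at h10
  have h11 : |ellE X - ell x| ≤ 60 * δ := h10
  refine h11.trans ?_
  unfold ell0
  norm_num at *
  linarith

/-- the full flow is close to the restricted one -/
theorem close (hA2 : StmtA2) {φ : ℝ → P2 → P2} (hφ : IsFlow (f0 rho0) φ) {K : NNReal} {C ε κ δ Tm : ℝ}
    {Φ : ℝ → P4 → P4} (hΦ : IsFlow (fe rho0 ε) Φ) (hK : LipschitzWith K (fe rho0 ε))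
    (hC : ∀ x : P4, ‖fe rho0 ε x - fe rho0 0 x‖ ≤ C * ε) (hCε : 0 ≤ C * ε) (hκ : 0 ≤ κ) (hTm : 0 ≤ Tm)
    (hδ : (κ + C * ε * Tm) * Real.exp (K * Tm) ≤ δ) {X0 : P4} (h1 : ‖X0.1.1 - 1‖ ≤ κ)
    (h2 : ‖X0.1.2‖ ≤ κ) {t : ℝ} (ht : t ∈ Icc 0 Tm) : Near δ (Φ t X0) (φ t X0.2) := by
  have hr : (0:ℝ) ≤ rho0 := by
    unfold rho0
    norm_num
  have hg : ∀ s, HasDerivAt (fun s => (((1, 0), φ s X0.2) : P4)) ((0, 0), f0 rho0 (φ s X0.2)) s := by
    intro s
    have e1 : HasDerivAt (fun s : ℝ => ((1, 0) : P2)) (0, 0) s := hasDerivAt_const s _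
    exact e1.prodMk (hφ.deriv s X0.2)
  have hfe : ∀ x : P2, fe rho0 0 ((1, 0), x) = ((0, 0), f0 rho0 x) := by
    intro x
    have g1 : gc rho0 1 = 1 := by
      rw [gc_eq_cut hr (by rw [norm_one]; unfold rho0; norm_num)]
      unfold gc
      rw [norm_one, max_eq_left zero_le_one]
      simp
    unfold fe f0
    apply Prod.ext
    · apply Prod.ext
      · rfl
      · show -2 * I * 0 + 1 - gc rho0 1 + ((0:ℝ):ℂ) * _ = (0:ℂ)
        rw [g1, ofReal_zero]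
        ring
    · apply Prod.ext
      · rfl
      · show -2 * I * x.2 + x.1 - ((1 + ((0:ℝ):ℂ))/2) * (gc rho0 (x.1 + 1/2) + gc rho0 (x.1 - 1/2)) =
          -2 * I * x.2 + x.1 - (1/2 : ℂ) * (gc rho0 (x.1 + 1/2) + gc rho0 (x.1 - 1/2))
        rw [ofReal_zero, add_zero]
  have h3 := hA2 P4 (fe rho0 ε) K Φ hK hΦ (fun s => ((1, 0), φ s X0.2))
    (fun s => ((0, 0), f0 rho0 (φ s X0.2))) Tm (C * ε) κ hTm hCε hκ
    (fun s _ => (hg s).continuousAt.continuousWithinAt) (fun s _ => (hg s).hasDerivWithinAt)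
    (fun s _ => by
      show ‖((0, 0), f0 rho0 (φ s X0.2)) - fe rho0 ε ((1, 0), φ s X0.2)‖ ≤ C * ε
      rw [← hfe, norm_sub_rev]
      exact hC _) X0 (by
      show ‖(((1, 0), φ 0 X0.2) : P4) - X0‖ ≤ κ
      rw [hφ.zero, norm4]
      have e1 : ‖X0.2.1 - X0.2.1‖ = 0 := by rw [sub_self, norm_zero]
      have e2 : ‖X0.2.2 - X0.2.2‖ = 0 := by rw [sub_self, norm_zero]
      show max (max ‖1 - X0.1.1‖ ‖0 - X0.1.2‖) (max ‖X0.2.1 - X0.2.1‖ ‖X0.2.2 - X0.2.2‖) ≤ κ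
      rw [e1, e2, zero_sub, norm_neg, norm_sub_rev]
      exact max_le (max_le h1 h2) (max_le hκ hκ)) t ht
  apply near_of
  rw [norm_sub_rev]
  exact h3.trans hδ

end Run7.h874
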